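import Pool.Agent.H583R2.WH.Defs

/-!
# The class `W[SAT]` relative to an oracle

The class `W[SAT]` is defined like the classes `W[t]` in `Pool.Agent.H583R2.WH.Defs`, but with one
block of existentially quantified numbers and a propositional formula of polynomial size, whose
variables are the results of the tests.
-/

namespace Pool.Agent.H583R2.WS

open Pool.Agent.NPC Pool.Agent.H628R3.RO Pool.Agent.H583R2.WH

/-- Evaluation of a formula in reverse Polish notation, one step: `(0, i)` is the variable `i`,
`(1, r)` is the conjunction of the last `r` values, `(2, r)` is the disjunction of the last `r`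
values, and the others are negations of the last value. -/
def step (v : List Bool) (s : List Bool) : ℕ × ℕ → List Bool
  | (0, i) => v.getD i false :: s
  | (1, r) => (s.take r).all id :: s.drop r
  | (2, r) => (s.take r).any id :: s.drop r
  | (_, _) =>
    match s with
    | [] => []
    | b :: s => (!b) :: s

/-- the formula `F` is true if the variables have the values `v` -/
def Frm (v : List Bool) (F : List (ℕ × ℕ)) : Prop := (F.foldl (step v) []).head? = some true

/-- A tail: the bound for the guessed numbers (in unary), the initial contents of the registers,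
the tests, and a formula. -/
abbrev STail : Type := List Unit × List ℕ × List Atom × List (ℕ × ℕ)

/-- there are `h` numbers for which the formula is true -/
def Sat (A : Oracle) (T : STail) (h : ℕ) : Prop :=
  ∃ y : List ℕ, (y.length = h ∧ ∀ u ∈ y, u < T.1.length) ∧
    Frm (T.2.2.1.map (val A T.1.length.size (T.2.1 ++ y))) T.2.2.2

/-- the class `W[SAT]` relative to `A` -/
def WSAT (A : Oracle) : Set PP :=
  {Q | ∃ f h : ℕ → ℕ, Computable f ∧ Computable h ∧ ∃ F : List Bool → List Bool, IsFP A F ∧
    ∀ x k, ∃ T : STail, F (inp f x k) = bits T ∧ ((x, k) ∈ Q ↔ Sat A T (h k))}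

/-- the nonuniform version of the class `AW[*]`: any number of blocks, depending on the
parameter -/
def AWN (A : Oracle) : Set PP := {Q | ∃ (f h : ℕ → ℕ) (bs : ℕ → List ℕ), Solves A f h bs Q}

/-! ### The hard problem -/

/-- the number of alternations -/
def dp (x : List Bool) : ℕ := Nat.log (lvl x) (x.length - lvl x - 1) - 2

/-- the hard problem -/
def RR (A : Oracle) : PP :=
  {p | ∃ y ∈ ws p.1.length p.2, A ∈ Act p.2 p.1.length p.1 y ∧
    Alt (lvl p.1) (fun z => Bt p.2 p.1.length p.1 y z A) false (List.replicate (dp p.1) 1) []}

/-- the strings of the oracle that belong to `y` -/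
def rg2 (t k m N : ℕ) (x : List Bool) (y : List ℕ) : Finset (List Bool) :=
  (Finset.range (k + 1) ×ˢ Finset.range N.size).image (fun p => adr (bits (x, p.1)) y p.2) ∪
  (ws m t ×ˢ Finset.range N.size).image (fun p => adr (bits (x, k + 1)) (y ++ p.1) p.2)

/-- make `y` active, with hidden bits `β` -/
noncomputable def put2 (t k m N : ℕ) (x : List Bool) (y : List ℕ) (β : List ℕ → Bool)
    (A : Oracle) : Oracle :=
  repl (rg2 t k m N x y) (cont k x y β) A

/-- the algorithm `M` errs on the input `x`, for parameter `k`, with padding `f`, at most `h` tests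
and blocks `bs` -/
def Err2 (k : ℕ) (M : Alg) (f h : ℕ) (bs : List ℕ) (x : List Bool) : Set Oracle :=
  {A | ¬ ∃ T : Tail, M.out A (inp (fun _ => f) x k) = some (bits T) ∧ T.2.2.1.length ≤ h ∧
    ((x, k) ∈ RR A ↔ Acc A T bs)}

/-- the parameter for which the algorithm `M` is too slow -/
noncomputable def kk2 (M : Alg) : ℕ := M.p.natDegree + 1

/-- the algorithm makes no error at stage `m` -/
def Fine2 (t k : ℕ) (M : Alg) (f h : ℕ) (bs : List ℕ) (m : ℕ) : Set Oracle :=
  {A | ∀ x ∈ XX t m, A ∉ Err2 k M f h bs x}

/-! ### The formula -/

/-- the tokens of the formula with `j` levels (beginning with a disjunction if `e` is true), for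
the leaves that begin with the number `a` -/
def tk (m o : ℕ) : Bool → ℕ → ℕ → List (ℕ × ℕ)
  | _, 0, a => [(0, o + a)]
  | e, j + 1, a =>
    (List.range m).flatMap (fun c => tk m o (!e) j (a * m + c)) ++ [(if e then 2 else 1, m)]

/-- the number given by the digits `z` -/
def num (m : ℕ) (z : List ℕ) : ℕ := z.foldl (fun a c => a * m + c) 0

/-- the digits of the number `a` -/
def dig (m d a : ℕ) : List ℕ := (List.range d).map (fun j => a / m ^ (d - 1 - j) % m)

/-- the whole formula -/
def fml (m d k : ℕ) : List (ℕ × ℕ) :=
  (List.range (k + 1)).map (fun i => (0, i)) ++ tk m (k + 1) false d 0 ++ [(1, k + 2)]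

/-- the tests -/
def tst (x : List Bool) (k : ℕ) : List Atom :=
  (List.range (k + 1)).map (fun i => Sum.inl (bits (x, i),
    (List.range k).map (fun j => lvl x + j), lvl x + k)) ++
  (List.range (lvl x ^ dp x)).map (fun a => Sum.inl (bits (x, k + 1),
    (List.range k).map (fun j => lvl x + j) ++ dig (lvl x) (dp x) a, lvl x + k))

/-- the tail for the hard problem -/
def ST (x : List Bool) (k : ℕ) : STail :=
  (List.replicate x.length (), List.range (lvl x), tst x k, fml (lvl x) (dp x) k)

end Pool.Agent.H583R2.WS
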