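import Pool.Agent.H583R2.WS.Defs
import Pool.Agent.H583R2.WH.JnTest

/-! Task JT: a test depends on few hidden bits. -/

namespace Pool.Agent.H583R2.WS

open Pool.Agent.NPC Pool.Agent.H628R3.RO Pool.Agent.H583R2.WH

namespace JT2

theorem put_congr (t k m N : ℕ) (x : List Bool) (y : List ℕ) (A : Oracle) (β β' : List ℕ → Bool)
    (w : List Bool) (v : List ℕ) (i : ℕ) (h : β (v.drop y.length) = β' (v.drop y.length)) :
    put2 t k m N x y β A (adr w v i) = put2 t k m N x y β' A (adr w v i) := by
  classical
  have key : ∀ γ γ' : List ℕ → Bool, γ (v.drop y.length) = γ' (v.drop y.length) →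
      (∃ z', adr w v i = adr (bits (x, k + 1)) (y ++ z') 0 ∧ γ z' = false) →
      ∃ z', adr w v i = adr (bits (x, k + 1)) (y ++ z') 0 ∧ γ' z' = false := by
    rintro γ γ' hγ ⟨z', h1, h2⟩
    refine ⟨z', h1, ?_⟩
    obtain ⟨-, h3, -⟩ := adr_inj h1
    have h4 : v.drop y.length = z' := by rw [h3, List.drop_left]
    rw [h4] at hγ
    rw [← hγ]
    exact h2
  unfold put2 repl
  by_cases hq : adr w v i ∈ rg2 t k m N x y
  · rw [if_pos hq, if_pos hq]
    unfold cont
    rw [decide_eq_decide]
    exact ⟨key β β' h, key β' β h.symm⟩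
  · rw [if_neg hq, if_neg hq]

theorem val_congr (t k m N : ℕ) (x : List Bool) (y : List ℕ) (A : Oracle)
    (β β' : List ℕ → Bool) (l : ℕ) (z : List ℕ) (a : Atom)
    (h : β (JT.pt y z a) = β' (JT.pt y z a)) :
    val (put2 t k m N x y β A) l z a = val (put2 t k m N x y β' A) l z a := by
  rcases a with ⟨w, r, b⟩ | ⟨r, R⟩
  · have h1 : word (put2 t k m N x y β A) l w (r.map (reg z)) =
        word (put2 t k m N x y β' A) l w (r.map (reg z)) := by
      unfold word
      congr 1
      apply List.map_congr_left
      intro i _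
      exact put_congr t k m N x y A β β' w _ i h
    show decide (word (put2 t k m N x y β A) l w (r.map (reg z)) = reg z b) =
      decide (word (put2 t k m N x y β' A) l w (r.map (reg z)) = reg z b)
    rw [h1]
  · rfl

end JT2

theorem jn_test2 (t k m N : ℕ) (x : List Bool) (y : List ℕ) (A : Oracle) (T : Tail) (z : List ℕ) :
    H592R2.Jn T.2.2.1.length (fun β : List ℕ → Bool => Test (put2 t k m N x y β A) T z) := by
  classical
  refine ⟨(T.2.2.1.map (JT.pt y z)).toFinset, ?_, ?_⟩
  · exact le_trans (List.toFinset_card_le _) (by rw [List.length_map])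
  · intro β β' h hT
    unfold Test at hT ⊢
    have h1 : T.2.2.1.map (val (put2 t k m N x y β' A) T.1.length.size z) =
        T.2.2.1.map (val (put2 t k m N x y β A) T.1.length.size z) := by
      apply List.map_congr_left
      intro a ha
      apply JT2.val_congr
      exact (h _ (List.mem_toFinset.mpr (List.mem_map.mpr ⟨a, ha, rfl⟩))).symm
    rw [h1]
    exact hT

end Pool.Agent.H583R2.WS
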