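import Pool.Agent.H583R2.WS.Defs
import Pool.Agent.H583R2.WH.NumE

/-! Task NU: sizes. -/

namespace Pool.Agent.H583R2.WS

open Pool.Agent.NPC Pool.Agent.H628R3.RO Pool.Agent.H583R2.WH

private theorem NU_mono (p : Polynomial ℕ) {a b : ℕ} (h : a ≤ b) : p.eval a ≤ p.eval b := by
  rw [Polynomial.eval_eq_sum_range, Polynomial.eval_eq_sum_range]
  exact Finset.sum_le_sum fun i _ => Nat.mul_le_mul_left _ (Nat.pow_le_pow_left h i)

private theorem NU_inp (k f : ℕ) : ∃ C : ℕ, ∀ x : List Bool, 1 ≤ x.length →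
    (inp (fun _ => f) x k).length ≤ C * x.length := by
  refine ⟨19 + sz (List.replicate k ()) + sz (List.replicate f ()), ?_⟩
  intro x hx
  unfold WH.inp
  beta_reduce
  rw [bits_length, sz_pair, sz_pair]
  have h1 := sz_listBool_le x
  set N := x.length with hN
  have h5 : sz (List.replicate k ()) ≤ sz (List.replicate k ()) * N :=
    Nat.le_mul_of_pos_right _ hx
  have h6 : sz (List.replicate f ()) ≤ sz (List.replicate f ()) * N :=
    Nat.le_mul_of_pos_right _ hx
  have h7 : (19 + sz (List.replicate k ()) + sz (List.replicate f ())) * N =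
      19 * N + sz (List.replicate k ()) * N + sz (List.replicate f ()) * N := by ring
  rw [h7]
  omega

theorem num_k2 (t f : ℕ) (M : Alg) : ∃ n0, ∀ m ≥ n0, ∀ x ∈ XX t m,
    4 * M.p.eval (inp (fun _ => f) x (kk2 M)).length ≤ x.length ^ kk2 M := by
  obtain ⟨C, hC⟩ := NU_inp (kk2 M) f
  obtain ⟨D, hD⟩ := num_eval M.p C 1
  refine ⟨4 * D + 1, ?_⟩
  intro m hm x hx
  obtain ⟨u, hu, rfl⟩ := mem_XX.1 hx
  have hlen : 4 * D + 1 ≤ (List.replicate m true ++ false :: u).length := by
    rw [List.length_append, List.length_replicate, List.length_cons]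
    omega
  set x := List.replicate m true ++ false :: u with hxdef
  have h1 := hC x (by omega)
  have h4 := hD x.length (by omega)
  rw [pow_one, one_mul] at h4
  have h2 := (NU_mono M.p h1).trans h4
  have h3 : x.length ^ kk2 M = x.length * x.length ^ M.p.natDegree := by
    unfold kk2
    rw [pow_succ]; ring
  rw [h3]
  calc 4 * M.p.eval (inp (fun _ => f) x (kk2 M)).length
      ≤ 4 * (D * x.length ^ M.p.natDegree) := Nat.mul_le_mul_left _ h2
    _ = (4 * D) * x.length ^ M.p.natDegree := by ring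
    _ ≤ x.length * x.length ^ M.p.natDegree := Nat.mul_le_mul_right _ (by omega)

end Pool.Agent.H583R2.WS
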