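import Pool.Agent.H583R2.WS.Defs
import Pool.Agent.H583R2.WH.Truth

/-! Task TR: truth of the hard problem. -/

namespace Pool.Agent.H583R2.WS

open Pool.Agent.NPC Pool.Agent.H628R3.RO Pool.Agent.H583R2.WH

private theorem tr_ext {M L : ℕ} {P P' : List ℕ → Prop}
    (h : ∀ z : List ℕ, z.length = L → (∀ u ∈ z, u < M) → (P z ↔ P' z)) :
    ∀ (bs : List ℕ) (e : Bool) (z : List ℕ), (∀ u ∈ z, u < M) → z.length + bs.sum = L →
      (Alt M P e bs z ↔ Alt M P' e bs z)
  | [], e, z, h1, h2 => by
    have := h z (by simpa using h2) h1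
    cases e <;> exact this
  | b :: bs, true, z, h1, h2 => by
    simp only [Alt]
    refine exists_congr fun y => and_congr_right fun hy => ?_
    refine tr_ext h bs false (z ++ y) ?_ ?_
    · intro u hu
      rcases List.mem_append.1 hu with hu | hu
      · exact h1 u hu
      · exact hy.2 u hu
    · rw [List.length_append, hy.1]
      rw [List.sum_cons] at h2
      omega
  | b :: bs, false, z, h1, h2 => by
    simp only [Alt]
    refine forall_congr' fun y => imp_congr_right fun hy => ?_
    refine tr_ext h bs true (z ++ y) ?_ ?_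
    · intro u hu
      rcases List.mem_append.1 hu with hu | hu
      · exact h1 u hu
      · exact hy.2 u hu
    · rw [List.length_append, hy.1]
      rw [List.sum_cons] at h2
      omega

private theorem tr_word_congr {A A' : Oracle} {l : ℕ} {w : List Bool} {v : List ℕ}
    (h : ∀ i < l, A (adr w v i) = A' (adr w v i)) : word A l w v = word A' l w v := by
  unfold word
  congr 1
  exact List.map_congr_left fun i hi => h i (List.mem_range.1 hi)

private theorem tr_valB {l : List Bool} : valB l = 0 ↔ ∀ b ∈ l, b = false := by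
  induction l with
  | nil => simp
  | cons b l ih =>
    rw [valB_cons, Nat.add_eq_zero_iff, List.forall_mem_cons, ← ih]
    cases b <;> simp

private theorem tr_word_zero {A : Oracle} {l : ℕ} {w : List Bool} {v : List ℕ} :
    word A l w v = 0 ↔ ∀ i < l, A (adr w v i) = false := by
  unfold word
  rw [tr_valB]
  simp only [List.mem_map, List.mem_range]
  constructor
  · intro h i hi
    exact h _ ⟨i, hi, rfl⟩
  · rintro h b ⟨i, hi, rfl⟩
    exact h i hi

private theorem tr_bits_ne {x : List Bool} {i j : ℕ} (h : i ≠ j) : bits (x, i) ≠ bits (x, j) := by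
  intro h'
  have := bits_injective h'
  rw [Prod.mk.injEq] at this
  exact h this.2

private theorem tr_rg1 {t k m N : ℕ} {x : List Bool} {y : List ℕ} {i j : ℕ} (hi : i ≤ k)
    (hj : j < N.size) : adr (bits (x, i)) y j ∈ rg2 t k m N x y := by
  unfold rg2
  refine Finset.mem_union_left _ (Finset.mem_image.2 ⟨(i, j), ?_, rfl⟩)
  exact Finset.mem_product.2 ⟨Finset.mem_range.2 (by omega), Finset.mem_range.2 hj⟩

private theorem tr_rg2 {t k m N : ℕ} {x : List Bool} {y z : List ℕ} {j : ℕ} (hz : z ∈ ws m t)
    (hj : j < N.size) : adr (bits (x, k + 1)) (y ++ z) j ∈ rg2 t k m N x y := by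
  unfold rg2
  refine Finset.mem_union_right _ (Finset.mem_image.2 ⟨(z, j), ?_, rfl⟩)
  exact Finset.mem_product.2 ⟨hz, Finset.mem_range.2 hj⟩

private theorem tr_len {t m : ℕ} {x : List Bool} (hx : x ∈ XX t m) :
    x.length = m + 1 + m ^ (t + 2) := by
  unfold XX at hx
  obtain ⟨v, -, rfl⟩ := Finset.mem_image.1 hx
  simp
  omega

theorem dp_XX {t m : ℕ} (hm : 2 ≤ m) {x : List Bool} (hx : x ∈ XX t m) : dp x = t := by
  unfold dp
  rw [lvl_XX hx, tr_len hx]
  have h1 : m + 1 + m ^ (t + 2) - m - 1 = m ^ (t + 2) := by omega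
  rw [h1, Nat.log_pow (by omega)]
  omega

private theorem rr_iff {t k m : ℕ} (hm : 2 ≤ m) {x : List Bool} (hx : x ∈ XX t m) (A : Oracle) :
    (x, k) ∈ RR A ↔ ∃ y ∈ ws x.length k, A ∈ Act k x.length x y ∧
      Alt m (fun z => Bt k x.length x y z A) false (List.replicate t 1) [] := by
  have h1 := dp_XX hm hx
  have h2 : lvl x = m := lvl_XX hx
  show (∃ y ∈ ws x.length k, A ∈ Act k x.length x y ∧
    Alt (lvl x) (fun z => Bt k x.length x y z A) false (List.replicate (dp x) 1) []) ↔ _
  rw [h1, h2]

theorem rr_touch {t k m : ℕ} (hm : 2 ≤ m) {x : List Bool} (hx : x ∈ XX t m) {A A' : Oracle}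
    (h : ∀ y ∈ ws x.length k, ∀ q ∈ rg2 t k m x.length x y, A q = A' q) :
    (x, k) ∈ RR A ↔ (x, k) ∈ RR A' := by
  rw [rr_iff hm hx, rr_iff hm hx]
  refine exists_congr fun y => and_congr_right fun hy => and_congr ?_ ?_
  · show (∀ i ≤ k, word A x.length.size (bits (x, i)) y = 0) ↔
      ∀ i ≤ k, word A' x.length.size (bits (x, i)) y = 0
    refine forall_congr' fun i => imp_congr_right fun hi => ?_
    rw [tr_word_congr (A := A) (A' := A') fun j hj => h y hy _ (tr_rg1 hi hj)]
  · refine tr_ext (L := t) (fun z hz hz' => ?_) _ _ _ (by simp) (by simp)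
    show word A x.length.size (bits (x, k + 1)) (y ++ z) = 0 ↔
      word A' x.length.size (bits (x, k + 1)) (y ++ z) = 0
    rw [tr_word_congr (A := A) (A' := A') fun j hj => h y hy _ (tr_rg2 (mem_ws.2 ⟨hz, hz'⟩) hj)]

theorem truth2 {t k m : ℕ} (hm : 2 ≤ m) {x : List Bool} (hx : x ∈ XX t m) {A : Oracle}
    (hA : A ∈ Quiet k x.length x) {y : List ℕ} (hy : y ∈ ws x.length k) (β : List ℕ → Bool) :
    (x, k) ∈ RR (put2 t k m x.length x y β A) ↔
      Alt m (fun z => β z = true) false (List.replicate t 1) [] := by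
  rw [rr_iff hm hx]
  have hact : put2 t k m x.length x y β A ∈ Act k x.length x y := by
    intro i hi
    rw [tr_word_zero]
    intro j hj
    unfold put2 repl
    rw [if_pos (tr_rg1 hi hj)]
    unfold cont
    rw [decide_eq_false_iff_not]
    rintro ⟨z, hz, -⟩
    exact tr_bits_ne (by omega) (adr_inj hz).1
  have hinact : ∀ y' ∈ ws x.length k, y' ≠ y →
      put2 t k m x.length x y β A ∉ Act k x.length x y' := by
    intro y' hy' hne hmem
    apply hA y' hy'
    intro i hi
    have h1 := hmem i hi
    rw [← h1]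
    apply tr_word_congr
    intro j hj
    unfold put2 repl
    rw [if_neg]
    intro hq
    unfold rg2 at hq
    rcases Finset.mem_union.1 hq with hq | hq
    · obtain ⟨p, -, hp⟩ := Finset.mem_image.1 hq
      exact hne (adr_inj hp).2.1.symm
    · obtain ⟨p, -, hp⟩ := Finset.mem_image.1 hq
      exact tr_bits_ne (by omega) (adr_inj hp).1
  have hbt : ∀ z ∈ ws m t,
      (Bt k x.length x y z (put2 t k m x.length x y β A) ↔ β z = true) := by
    intro z hz
    unfold Bt
    rw [tr_word_zero]
    have key : ∀ j < x.length.size,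
        (put2 t k m x.length x y β A (adr (bits (x, k + 1)) (y ++ z) j) = false ↔
        (j = 0 → β z = true)) := by
      intro j hj
      unfold put2 repl
      rw [if_pos (tr_rg2 hz hj)]
      unfold cont
      rw [decide_eq_false_iff_not]
      constructor
      · intro h hj0
        subst hj0
        by_contra hb
        exact h ⟨z, rfl, by simpa using hb⟩
      · rintro h ⟨z', hz', hb⟩
        obtain ⟨-, h2, h3⟩ := adr_inj hz'
        have := List.append_cancel_left h2
        subst this
        rw [h h3] at hb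
        exact Bool.noConfusion hb
    have hs : 0 < x.length.size := by
      have h1 : 1 ≤ x.length := by
        rw [tr_len hx]
        omega
      exact Nat.size_pos.2 h1
    constructor
    · intro h
      exact (key 0 hs).1 (h 0 hs) rfl
    · intro h j hj
      exact (key j hj).2 fun _ => h
  have halt : Alt m (fun z => Bt k x.length x y z (put2 t k m x.length x y β A)) false
      (List.replicate t 1) [] ↔ Alt m (fun z => β z = true) false (List.replicate t 1) [] :=
    tr_ext (L := t) (fun z hz hz' => hbt z (mem_ws.2 ⟨hz, hz'⟩)) _ _ _ (by simp) (by simp)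
  constructor
  · rintro ⟨y', hy', h1, h2⟩
    by_cases hne : y' = y
    · subst hne
      exact halt.1 h2
    · exact absurd h1 (hinact y' hy' hne)
  · intro h
    exact ⟨y, hy, hact, halt.2 h⟩

end Pool.Agent.H583R2.WS
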