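import Pool.Agent.H583R2.WS.Rg
import Pool.Agent.H583R2.WS.Truth
import Pool.Agent.H583R2.WS.JnTest
import Pool.Agent.H583R2.WS.NumE
import Pool.Agent.H583R2.WH.ErrM
import Pool.Agent.H583R2.WH.Pure

/-! Task EM: errors after many changes. -/

namespace Pool.Agent.H583R2.WS

open Pool.Agent.NPC Pool.Agent.H628R3.RO Pool.Agent.H583R2.WH

namespace EMx

open Classical in
/-- few strings hit few regions -/
theorem lost (t k m : ℕ) (x : List Bool) (hx : x ∈ XX t m) (Q : Finset (List Bool)) :
    x.length ^ k ≤ ((ws x.length k).filter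
      (fun y => ∀ q ∈ Q, q ∉ rg2 t k m x.length x y)).card + Q.card := by
  obtain ⟨U, hU, hU'⟩ := hit_card2 t k m Q
  have h1 : (ws x.length k).card ≤ ((ws x.length k).filter
      (fun y => ∀ q ∈ Q, q ∉ rg2 t k m x.length x y)).card + (U.image Prod.snd).card := by
    rw [← Finset.card_filter_add_card_filter_not (s := ws x.length k)
      (fun y => ∀ q ∈ Q, q ∉ rg2 t k m x.length x y)]
    gcongr
    intro y hy
    rw [Finset.mem_filter] at hy
    by_contra hcon
    apply hy.2
    refine hU' x hx y hy.1 fun hm => hcon ?_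
    exact Finset.mem_image_of_mem Prod.snd hm
  rw [card_ws] at h1
  have h2 : (U.image Prod.snd).card ≤ U.card := Finset.card_image_le
  omega

/-- an algorithm without error on the changed oracle is correct with the same tail -/
theorem same {t k m f h : ℕ} {M : Alg} {bs : List ℕ} {x : List Bool} {A : Oracle} {T : Tail}
    {Q : Finset (List Bool)} (hT : M.out A (inp (fun _ => f) x k) = some (bits T))
    (hQ : ∀ A' : Oracle, (∀ q ∈ Q, A' q = A q) →
      M.out A' (inp (fun _ => f) x k) = M.out A (inp (fun _ => f) x k))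
    {y : List ℕ} (hy : ∀ q ∈ Q, q ∉ rg2 t k m x.length x y)
    (hC : ∀ C : Oracle, repl (rg2 t k m x.length x y) C A ∉ Err2 k M f h bs x)
    (β : List ℕ → Bool) :
    (x, k) ∈ RR (put2 t k m x.length x y β A) ↔ Acc (put2 t k m x.length x y β A) T bs := by
  have h1 := hC (cont k x y β)
  have h2 : ∃ T' : Tail, M.out (put2 t k m x.length x y β A) (inp (fun _ => f) x k) =
      some (bits T') ∧ T'.2.2.1.length ≤ h ∧ ((x, k) ∈ RR (put2 t k m x.length x y β A) ↔
        Acc (put2 t k m x.length x y β A) T' bs) := by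
    by_contra hcon
    exact h1 hcon
  obtain ⟨T', h3, -, h4⟩ := h2
  have h5 : ∀ q ∈ Q, put2 t k m x.length x y β A q = A q := by
    intro q hq
    unfold put2 repl
    rw [if_neg (hy q hq)]
  rw [hQ _ h5, hT] at h3
  have h6 : T = T' := bits_injective (Option.some.inj h3)
  rw [h6]
  exact h4

end EMx

open EMx in
theorem err_many2 (f h : ℕ) (M : Alg) (bs : List ℕ) :
    ∃ b0, ∀ b ≥ b0, ∀ x ∈ XX bs.length (b ^ 3), ∀ A ∈ Quiet (kk2 M) x.length x,
      A ∉ Err2 (kk2 M) M f h bs x → ∃ V ⊆ ws x.length (kk2 M),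
        x.length ^ kk2 M ≤ 2 * V.card ∧ ∀ y ∈ V, ∃ C : Oracle,
          repl (rg2 bs.length (kk2 M) (b ^ 3) x.length x y) C A ∈ Err2 (kk2 M) M f h bs x := by
  classical
  obtain ⟨t, hbs⟩ : ∃ t, bs.length = t := ⟨_, rfl⟩
  rw [hbs]
  obtain ⟨c, C0, hnt⟩ := num_tail t (kk2 M) f M
  obtain ⟨n0, hnk⟩ := num_k2 t f M
  obtain ⟨qb, hloc⟩ := Alg.out_local M
  have hk1 : 1 ≤ kk2 M := by unfold kk2; omega
  rcases Nat.eq_zero_or_pos t with ht | ht
  · -- no block
    subst ht
    have hbs' : bs = [] := List.length_eq_zero_iff.1 hbs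
    subst hbs'
    obtain ⟨n1, hn1⟩ := WH.ErrMx.size_poly_small (4 * h) C0 c
    refine ⟨max (max n0 n1) 2, fun b hb x hx A hA hE => ?_⟩
    have hb1 : 2 ≤ b := le_trans (le_max_right _ _) hb
    have hbn : b ≤ b ^ 3 := Nat.le_self_pow (by norm_num) b
    have hn0' : n0 ≤ b ^ 3 := ((le_max_left _ _).trans (le_max_left _ _)).trans (hb.trans hbn)
    have hn1' : n1 ≤ b ^ 3 := ((le_max_right _ _).trans (le_max_left _ _)).trans (hb.trans hbn)
    have hn2 : 2 ≤ b ^ 3 := hb1.trans hbn
    have hn : 1 ≤ b ^ 3 := by omega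
    generalize hk : kk2 M = k at *
    set n := b ^ 3 with hnn
    obtain ⟨T, hT, hTh, hTi⟩ : ∃ T : Tail, M.out A (inp (fun _ => f) x k) = some (bits T) ∧
        T.2.2.1.length ≤ h ∧ ((x, k) ∈ RR A ↔ Acc A T []) := by
      by_contra hcon
      exact hE hcon
    obtain ⟨Q, hQ1, -, hQ2⟩ := hloc A (inp (fun _ => f) x k)
    obtain ⟨U, hU1, hU2⟩ := acc_touch T []
    have hQ3 : 4 * Q.card ≤ x.length ^ k := by
      have := hnk n hn0' x hx
      omega
    have hxl : n ≤ x.length := by
      obtain ⟨u, hu, rfl⟩ := mem_XX.1 hx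
      rw [List.length_append, List.length_replicate]
      omega
    have hU3 : 4 * U.card ≤ x.length ^ k := by
      have h1 := hn1 n hn1' T.1.length (hnt n hn x hx A T hT)
      have h2 : x.length ≤ x.length ^ k := Nat.le_self_pow (by omega) x.length
      have h3 : U.card ≤ h * T.1.length.size := by
        refine hU1.trans ?_
        simp only [List.sum_nil, pow_zero, one_mul]
        exact Nat.mul_le_mul_right _ hTh
      calc 4 * U.card ≤ 4 * (h * T.1.length.size) := Nat.mul_le_mul_left _ h3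
        _ = 4 * h * T.1.length.size := by ring
        _ ≤ n := h1
        _ ≤ x.length := hxl
        _ ≤ x.length ^ k := h2
    refine ⟨(ws x.length k).filter (fun y => ∀ q ∈ Q ∪ U, q ∉ rg2 0 k n x.length x y),
      Finset.filter_subset _ _, ?_, ?_⟩
    · have h1 := lost 0 k n x hx (Q ∪ U)
      have h2 : (Q ∪ U).card ≤ Q.card + U.card := Finset.card_union_le _ _
      omega
    · intro y hy
      rw [Finset.mem_filter] at hy
      by_contra hcon
      push Not at hcon
      have hyQ : ∀ q ∈ Q, q ∉ rg2 0 k n x.length x y :=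
        fun q hq => hy.2 q (Finset.mem_union_left _ hq)
      have hyU : ∀ q ∈ U, q ∉ rg2 0 k n x.length x y :=
        fun q hq => hy.2 q (Finset.mem_union_right _ hq)
      have h1 := same hT hQ2 hyQ hcon (fun _ => decide (¬ Acc A T []))
      have h2 := truth2 (t := 0) hn2 hx hA hy.1 (fun _ => decide (¬ Acc A T []))
      have h3 : Acc A T [] ↔
          Acc (put2 0 k n x.length x y (fun _ => decide (¬ Acc A T [])) A) T [] := by
        refine hU2 _ _ fun q hq => ?_
        unfold put2 repl
        rw [if_neg (hyU q hq)]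
      have h4 : (decide (¬ Acc A T []) = true) ↔ Acc A T [] := (h2.symm.trans h1).trans h3.symm
      rw [decide_eq_true_iff] at h4
      by_cases h5 : Acc A T []
      · exact (h4.2 h5) h5
      · exact h5 (h4.1 h5)
  · obtain ⟨b1, hpure⟩ := pure t ht (h + bs.sum) (3 * c) C0
    refine ⟨max (max n0 b1) 2, fun b hb x hx A hA hE => ?_⟩
    have hb1 : 2 ≤ b := le_trans (le_max_right _ _) hb
    have hbn : b ≤ b ^ 3 := Nat.le_self_pow (by norm_num) b
    have hn0' : n0 ≤ b ^ 3 := ((le_max_left _ _).trans (le_max_left _ _)).trans (hb.trans hbn)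
    have hb1' : b1 ≤ b := ((le_max_right _ _).trans (le_max_left _ _)).trans hb
    have hn2 : 2 ≤ b ^ 3 := hb1.trans hbn
    have hn : 1 ≤ b ^ 3 := by omega
    generalize hk : kk2 M = k at *
    set n := b ^ 3 with hnn
    obtain ⟨T, hT, hTh, hTi⟩ : ∃ T : Tail, M.out A (inp (fun _ => f) x k) = some (bits T) ∧
        T.2.2.1.length ≤ h ∧ ((x, k) ∈ RR A ↔ Acc A T bs) := by
      by_contra hcon
      exact hE hcon
    obtain ⟨Q, hQ1, -, hQ2⟩ := hloc A (inp (fun _ => f) x k)
    have hQ3 : 4 * Q.card ≤ x.length ^ k := by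
      have := hnk n hn0' x hx
      omega
    refine ⟨(ws x.length k).filter (fun y => ∀ q ∈ Q, q ∉ rg2 t k n x.length x y),
      Finset.filter_subset _ _, ?_, ?_⟩
    · have h1 := lost t k n x hx Q
      omega
    · intro y hy
      rw [Finset.mem_filter] at hy
      by_contra hcon
      push Not at hcon
      have hM : T.1.length ≤ C0 * b ^ (3 * c) := by
        have := hnt n hn x hx A T hT
        rwa [hnn, ← pow_mul] at this
      obtain ⟨β, hβ⟩ := hpure b hb1' T.1.length bs T.2.1
        (fun z β => Test (put2 t k n x.length x y β A) T z) hM hbs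
        (fun u hu => (List.le_sum_of_mem hu).trans (Nat.le_add_left _ _))
        (fun z => (jn_test2 t k n x.length x y A T z).mono (hTh.trans (Nat.le_add_right _ _)))
      have h1 := same hT hQ2 hy.2 hcon β
      have h2 := truth2 (t := t) hn2 hx hA hy.1 β
      exact hβ (h1.symm.trans h2)

end Pool.Agent.H583R2.WS
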