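import Pool.Agent.H583R2.WS.Rg
import Pool.Agent.H583R2.WS.Truth
import Pool.Agent.H583R2.WS.NumE
import Pool.Agent.H583R2.WH.ErrT

/-! Task ET: an error depends on few regions. -/

namespace Pool.Agent.H583R2.WS

open Pool.Agent.NPC Pool.Agent.H628R3.RO Pool.Agent.H583R2.WH

namespace ErrT

theorem len_XX {t m : ℕ} {x : List Bool} (hx : x ∈ XX t m) :
    x.length = m + 1 + m ^ (t + 2) := by
  obtain ⟨u, hu, rfl⟩ := mem_XX.1 hx
  rw [List.length_append, List.length_replicate, List.length_cons, hu]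
  ring

theorem len_le {t m : ℕ} (hm : 1 ≤ m) {x : List Bool} (hx : x ∈ XX t m) :
    x.length ≤ 3 * m ^ (t + 2) := by
  rw [len_XX hx]
  have h1 : m ≤ m ^ (t + 2) := Nat.le_self_pow (by omega) m
  have h2 : 1 ≤ m ^ (t + 2) := Nat.one_le_pow _ _ hm
  omega

end ErrT

theorem err_touch2 (t k f h : ℕ) (M : Alg) (bs : List ℕ) : ∃ D e : ℕ, ∀ m ≥ 2, ∀ x ∈ XX t m,
    ∀ A ∈ Err2 k M f h bs x, ∃ U : Finset (List Bool × List ℕ), U.card ≤ D * m ^ e ∧
      ∀ x' ∈ XX t m, ∀ y' ∈ ws x'.length k, (x', y') ∉ U → ∀ C : Oracle,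
        repl (rg2 t k m x'.length x' y') C A ∈ Err2 k M f h bs x := by
  classical
  obtain ⟨C1, hC1⟩ := num_inp t k f
  obtain ⟨D1, hD1⟩ := num_eval M.p C1 (t + 2)
  obtain ⟨c, C2, hC2⟩ := num_tail t k f M
  obtain ⟨qb, hqb⟩ := M.out_local
  set e1 := (t + 2) * M.p.natDegree with he1
  set e2 := c * bs.sum + c with he2
  set e0 := (t + 2) * k with he0
  set D2 := (C2 + 1) ^ bs.sum * (h * C2) with hD2
  refine ⟨3 ^ k + D1 + D2, e0 + e1 + e2, fun m hm x hx A hA => ?_⟩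
  have hn : 1 ≤ m := by omega
  obtain ⟨Q, hQ1, -, hQ2⟩ := hqb A (inp (fun _ => f) x k)
  have hQc : Q.card ≤ D1 * m ^ e1 :=
    (hQ1.trans (WH.ErrT.poly_mono M.p (hC1 m hn x hx))).trans (hD1 m hn)
  obtain ⟨U0, hU0, hU0'⟩ := hit_card2 t k m Q
  -- the regions that hit the tail
  have hU1 : ∃ U1 : Finset (List Bool × List ℕ), U1.card ≤ D2 * m ^ e2 ∧
      ∀ T : Tail, M.out A (inp (fun _ => f) x k) = some (bits T) → T.2.2.1.length ≤ h →
        ∀ x' ∈ XX t m, ∀ y' ∈ ws x'.length k, (x', y') ∉ U1 → ∀ C : Oracle,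
          (Acc A T bs ↔ Acc (repl (rg2 t k m x'.length x' y') C A) T bs) := by
    by_cases hT : ∃ T : Tail, M.out A (inp (fun _ => f) x k) = some (bits T) ∧ T.2.2.1.length ≤ h
    · obtain ⟨T, hT1, hT2⟩ := hT
      obtain ⟨V, hV1, hV2⟩ := acc_touch T bs
      obtain ⟨U1, hU1, hU1'⟩ := hit_card2 t k m V
      refine ⟨U1, ?_, ?_⟩
      · exact (hU1.trans hV1).trans (WH.ErrT.tail_bound hn (hC2 m hn x hx A T hT1) hT2)
      · intro T' hT' _ x' hx' y' hy' hn' C
        have hTT : T' = T := by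
          rw [hT1] at hT'
          exact (bits_injective (Option.some.inj hT')).symm
        subst hTT
        refine hV2 _ _ fun q hq => ?_
        have := hU1' x' hx' y' hy' hn' q hq
        simp only [repl, if_neg this]
    · refine ⟨∅, by simp, ?_⟩
      intro T h1 h2
      exact absurd ⟨T, h1, h2⟩ hT
  obtain ⟨U1, hU1, hU1'⟩ := hU1
  refine ⟨({x} ×ˢ ws x.length k) ∪ U0 ∪ U1, ?_, ?_⟩
  · have a1 : (({x} : Finset (List Bool)) ×ˢ ws x.length k).card ≤ 3 ^ k * m ^ e0 := by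
      rw [Finset.card_product, Finset.card_singleton, one_mul, card_ws, he0, pow_mul, ← mul_pow]
      exact Nat.pow_le_pow_left (ErrT.len_le hn hx) k
    have a2 : (({x} ×ˢ ws x.length k) ∪ U0 ∪ U1).card ≤
        3 ^ k * m ^ e0 + D1 * m ^ e1 + D2 * m ^ e2 := by
      refine (Finset.card_union_le _ _).trans (Nat.add_le_add ?_ hU1)
      refine (Finset.card_union_le _ _).trans (Nat.add_le_add a1 (hU0.trans hQc))
    have b0 : m ^ e0 ≤ m ^ (e0 + e1 + e2) := Nat.pow_le_pow_right hn (by omega)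
    have b1 : m ^ e1 ≤ m ^ (e0 + e1 + e2) := Nat.pow_le_pow_right hn (by omega)
    have b2 : m ^ e2 ≤ m ^ (e0 + e1 + e2) := Nat.pow_le_pow_right hn (by omega)
    calc _ ≤ 3 ^ k * m ^ e0 + D1 * m ^ e1 + D2 * m ^ e2 := a2
      _ ≤ 3 ^ k * m ^ (e0 + e1 + e2) + D1 * m ^ (e0 + e1 + e2) + D2 * m ^ (e0 + e1 + e2) :=
        Nat.add_le_add (Nat.add_le_add (Nat.mul_le_mul_left _ b0) (Nat.mul_le_mul_left _ b1))
          (Nat.mul_le_mul_left _ b2)
      _ = _ := by ring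
  · intro x' hx' y' hy' hU C
    simp only [Finset.mem_union, Finset.mem_product, Finset.mem_singleton, not_or, not_and] at hU
    obtain ⟨⟨u1, u2⟩, u3⟩ := hU
    have hxx : x' ≠ x := by
      intro e
      apply u1 e
      rw [← e]
      exact hy'
    have hout : M.out (repl (rg2 t k m x'.length x' y') C A) (inp (fun _ => f) x k) =
        M.out A (inp (fun _ => f) x k) := by
      refine hQ2 _ fun q hq => ?_
      have := hU0' x' hx' y' hy' u2 q hq
      simp only [repl, if_neg this]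
    rintro ⟨T, hT1, hT2, hT3⟩
    rw [hout] at hT1
    refine hA ⟨T, hT1, hT2, ?_⟩
    rw [hU1' T hT1 hT2 x' hx' y' hy' u3 C, ← hT3]
    refine rr_touch hm hx fun y hy q hq => ?_
    have : q ∉ rg2 t k m x'.length x' y' := fun hq' =>
      hxx (rg2_unique (mem_ws.1 hy').1 (mem_ws.1 hy).1 hq' hq).1
    simp only [repl, if_neg this]

end Pool.Agent.H583R2.WS
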