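import Pool.Agent.H583R2.WS.Defs
import Pool.Agent.H583R2.WH.Basic

/-! Task EV: the value of the formula. -/

namespace Pool.Agent.H583R2.WS

open Pool.Agent.NPC Pool.Agent.H628R3.RO Pool.Agent.H583R2.WH

/-- the value of a subformula -/
private def evW (v : List Bool) (m o : ℕ) : Bool → ℕ → ℕ → Bool
  | _, 0, a => v.getD (o + a) false
  | true, j + 1, a => (List.range m).any (fun c => evW v m o false j (a * m + c))
  | false, j + 1, a => (List.range m).all (fun c => evW v m o true j (a * m + c))

private theorem ev_flat {β : Type} (v : List Bool) (f : β → List (ℕ × ℕ)) (g : β → Bool)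
    (h : ∀ c s, (f c).foldl (step v) s = g c :: s) :
    ∀ (l : List β) (s : List Bool), (l.flatMap f).foldl (step v) s = (l.map g).reverse ++ s
  | [], s => rfl
  | c :: l, s => by
    rw [List.flatMap_cons, List.foldl_append, h, ev_flat v f g h l]
    simp

private theorem ev_tk (v : List Bool) (m o : ℕ) : ∀ (j : ℕ) (e : Bool) (a : ℕ) (s : List Bool),
    (tk m o e j a).foldl (step v) s = evW v m o e j a :: s
  | 0, e, a, s => by
    cases e <;> rfl
  | j + 1, e, a, s => by
    have h1 := ev_flat v (fun c => tk m o (!e) j (a * m + c))
      (fun c => evW v m o (!e) j (a * m + c)) (fun c s => ev_tk v m o j (!e) (a * m + c) s)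
      (List.range m) s
    have h2 : ((List.range m).map (fun c => evW v m o (!e) j (a * m + c))).reverse.length = m := by
      simp
    rw [tk, List.foldl_append, h1, List.foldl_cons, List.foldl_nil]
    cases e
    · simp only [Bool.not_false, Bool.false_eq_true, if_false]
      simp only [Bool.not_false] at h2
      rw [step, List.take_left' h2, List.drop_left' h2, List.all_reverse, List.all_map, evW]
      rfl
    · simp only [Bool.not_true, if_true]
      simp only [Bool.not_true] at h2
      rw [step, List.take_left' h2, List.drop_left' h2, List.any_reverse, List.any_map, evW]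
      rfl

private theorem num_append (m : ℕ) (z : List ℕ) (c : ℕ) : num m (z ++ [c]) = num m z * m + c := by
  unfold num
  rw [List.foldl_append]
  rfl

private theorem ev_alt (v : List Bool) (m o : ℕ) : ∀ (j : ℕ) (e : Bool) (z : List ℕ),
    evW v m o e j (num m z) = true ↔
      Alt m (fun z => v.getD (o + num m z) false = true) e (List.replicate j 1) z
  | 0, e, z => by
    cases e <;> exact Iff.rfl
  | j + 1, true, z => by
    rw [evW, List.replicate_succ, Alt, List.any_eq_true]
    constructor
    · rintro ⟨c, hc, h⟩
      refine ⟨[c], ⟨rfl, fun u hu => ?_⟩, ?_⟩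
      · rw [List.mem_singleton.1 hu]
        exact List.mem_range.1 hc
      · rw [← ev_alt v m o j false, num_append]
        exact h
    · rintro ⟨y, ⟨hy1, hy2⟩, h⟩
      obtain ⟨c, rfl⟩ := List.length_eq_one_iff.1 hy1
      refine ⟨c, List.mem_range.2 (hy2 c (List.mem_singleton.2 rfl)), ?_⟩
      rw [← ev_alt v m o j false, num_append] at h
      exact h
  | j + 1, false, z => by
    rw [evW, List.replicate_succ, Alt, List.all_eq_true]
    constructor
    · rintro h y ⟨hy1, hy2⟩
      obtain ⟨c, rfl⟩ := List.length_eq_one_iff.1 hy1
      have := h c (List.mem_range.2 (hy2 c (List.mem_singleton.2 rfl)))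
      rw [← ev_alt v m o j true, num_append]
      exact this
    · intro h c hc
      have := h [c] ⟨rfl, fun u hu => by
        rw [List.mem_singleton.1 hu]
        exact List.mem_range.1 hc⟩
      rw [← ev_alt v m o j true, num_append] at this
      exact this

private theorem ev_leaves (v : List Bool) : ∀ (l : List ℕ) (s : List Bool),
    (l.map (fun i => ((0, i) : ℕ × ℕ))).foldl (step v) s =
      (l.map (fun i => v.getD i false)).reverse ++ s
  | [], s => rfl
  | i :: l, s => by
    rw [List.map_cons, List.foldl_cons, ev_leaves v l]
    simp [step]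

theorem frm_fml (v : List Bool) (m d k : ℕ) : Frm v (fml m d k) ↔
    (∀ i ≤ k, v.getD i false = true) ∧
      Alt m (fun z => v.getD (k + 1 + num m z) false = true) false (List.replicate d 1) [] := by
  unfold Frm fml
  rw [List.foldl_append, List.foldl_append, ev_leaves, ev_tk, List.foldl_cons, List.foldl_nil,
    step, List.append_nil]
  have h1 : (evW v m (k + 1) false d 0 ::
      ((List.range (k + 1)).map (fun i => v.getD i false)).reverse).length = k + 2 := by
    simp
  rw [List.take_of_length_le h1.le, List.head?_cons, Option.some.injEq, List.all_cons,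
    List.all_reverse, List.all_map, Bool.and_eq_true, List.all_eq_true]
  have h2 := ev_alt v m (k + 1) d false []
  have h3 : num m [] = 0 := rfl
  rw [h3] at h2
  rw [← h2]
  constructor
  · rintro ⟨h, h'⟩
    exact ⟨fun i hi => h' i (List.mem_range.2 (by omega)), h⟩
  · rintro ⟨h, h'⟩
    exact ⟨h', fun i hi => h i (by have := List.mem_range.1 hi; omega)⟩

private theorem dig_aux (m : ℕ) (z : List ℕ) (h : ∀ u ∈ z, u < m) :
    dig m z.length (num m z) = z := by
  induction z using List.reverseRecOn with
  | nil => rfl
  | append_singleton z c ih =>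
    have hc : c < m := h c (by simp)
    have hm : 0 < m := by omega
    have ih' := ih fun u hu => h u (List.mem_append_left _ hu)
    rw [num_append]
    have hlen : (z ++ [c]).length = z.length + 1 := by simp
    rw [hlen]
    unfold dig at ih' ⊢
    rw [List.range_succ, List.map_append]
    congr 1
    · rw [← ih']
      rw [List.length_map, List.length_range] at *
      refine (List.map_congr_left fun j hj => ?_)
      have hj' := List.mem_range.1 hj
      rw [ih']
      have e1 : z.length + 1 - 1 - j = (z.length - 1 - j) + 1 := by omega
      rw [e1, pow_succ', ← Nat.div_div_eq_div_mul, mul_comm (num m z) m,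
        Nat.mul_add_div hm, Nat.div_eq_of_lt hc, add_zero]
    · have e1 : z.length + 1 - 1 - z.length = 0 := by omega
      simp only [List.map_cons, List.map_nil, e1, pow_zero, Nat.div_one]
      rw [mul_comm (num m z) m, Nat.mul_add_mod, Nat.mod_eq_of_lt hc]

theorem dig_num {m d : ℕ} {z : List ℕ} (hz : z ∈ ws m d) : dig m d (num m z) = z := by
  obtain ⟨h1, h2⟩ := mem_ws.1 hz
  subst h1
  exact dig_aux m z h2

private theorem num_aux (m : ℕ) (z : List ℕ) (h : ∀ u ∈ z, u < m) :
    num m z < m ^ z.length := by
  induction z using List.reverseRecOn with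
  | nil => simp [num]
  | append_singleton z c ih =>
    have hc : c < m := h c (by simp)
    have ih' := ih fun u hu => h u (List.mem_append_left _ hu)
    rw [num_append]
    have hlen : (z ++ [c]).length = z.length + 1 := by simp
    rw [hlen, pow_succ]
    have : (num m z + 1) * m ≤ m ^ z.length * m := Nat.mul_le_mul_right _ ih'
    have e : (num m z + 1) * m = num m z * m + m := by ring
    omega

theorem num_lt {m d : ℕ} {z : List ℕ} (hz : z ∈ ws m d) : num m z < m ^ d := by
  obtain ⟨h1, h2⟩ := mem_ws.1 hz
  subst h1
  exact num_aux m z h2

end Pool.Agent.H583R2.WS
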