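import Pool.Agent.H583R2.WS.Defs
import Pool.Agent.H583R2.WH.Lim

/-! Task LI: a limit. -/

namespace Pool.Agent.H583R2.WS

open Pool.Agent.NPC Pool.Agent.H628R3.RO Pool.Agent.H583R2.WH

private theorem LI_size (t n : ℕ) (hn : 1 ≤ n) :
    (n + 1 + n ^ (t + 2)).size ≤ (t + 4) * n := by
  have h1 : n ≤ n ^ (t + 2) := Nat.le_self_pow (by omega) n
  have h2 : n ^ (t + 2) < 2 ^ (n * (t + 2)) := by
    rw [pow_mul]
    exact Nat.pow_lt_pow_left Nat.lt_two_pow_self (by omega)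
  have h3 : n + 1 + n ^ (t + 2) < 2 ^ (n * (t + 2) + 2) := by
    rw [pow_add 2 (n * (t + 2)) 2]
    omega
  have h4 := Nat.size_le.2 h3
  have h5 : (t + 4) * n = n * (t + 2) + 2 * n := by ring
  omega

theorem num_lim2 (t k D e : ℕ) (ε : ℝ) (hε : 0 < ε) : ∃ n0 : ℕ, ∀ n ≥ n0,
    1 / (n : ℝ) + D * (n : ℝ) ^ e *
      2 ^ ((n + 1 + n ^ (t + 2)).size * (k + 1 + n ^ t)) / 2 ^ (n ^ (t + 2)) ≤ ε := by
  have h1 : Filter.Tendsto (fun n : ℕ => 1 / (n : ℝ) + (D : ℝ) * ((n : ℝ) ^ e / (2 : ℝ) ^ n))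
      Filter.atTop (nhds 0) := by
    have a := tendsto_one_div_atTop_nhds_zero_nat (𝕜 := ℝ)
    have b := (tendsto_pow_const_div_const_pow_of_one_lt e (r := (2 : ℝ)) (by norm_num)).const_mul
      (D : ℝ)
    simpa using a.add b
  have h2 := h1.eventually_le_const hε
  obtain ⟨n1, hn1⟩ := Filter.eventually_atTop.1 h2
  refine ⟨max n1 ((t + 4) * (k + 2) + 1), fun n hn => ?_⟩
  have hn1' : n1 ≤ n := le_trans (le_max_left _ _) hn
  have hk : (t + 4) * (k + 2) + 1 ≤ n := le_trans (le_max_right _ _) hn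
  have hexp : (n + 1 + n ^ (t + 2)).size * (k + 1 + n ^ t) + n ≤ n ^ (t + 2) := by
    have hs := LI_size t n (by omega)
    have ht : n ≤ n ^ (t + 1) := Nat.le_self_pow (by omega) n
    have hp : 1 ≤ n ^ t := Nat.one_le_pow _ _ (by omega)
    have h3 : k + 1 + n ^ t ≤ (k + 2) * n ^ t := by nlinarith
    calc (n + 1 + n ^ (t + 2)).size * (k + 1 + n ^ t) + n
        ≤ (t + 4) * n * ((k + 2) * n ^ t) + n ^ (t + 1) := by gcongr
      _ = ((t + 4) * (k + 2) + 1) * n ^ (t + 1) := by ring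
      _ ≤ n * n ^ (t + 1) := by gcongr
      _ = n ^ (t + 2) := by ring
  have hdiv : (2 : ℝ) ^ ((n + 1 + n ^ (t + 2)).size * (k + 1 + n ^ t)) / 2 ^ (n ^ (t + 2)) ≤
      1 / 2 ^ n := by
    rw [div_le_div_iff₀ (by positivity) (by positivity), one_mul, ← pow_add]
    exact pow_le_pow_right₀ (by norm_num) hexp
  have h3 := hn1 n hn1'
  calc 1 / (n : ℝ) + D * (n : ℝ) ^ e *
        2 ^ ((n + 1 + n ^ (t + 2)).size * (k + 1 + n ^ t)) / 2 ^ (n ^ (t + 2))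
      = 1 / (n : ℝ) + D * (n : ℝ) ^ e *
        (2 ^ ((n + 1 + n ^ (t + 2)).size * (k + 1 + n ^ t)) / 2 ^ (n ^ (t + 2))) := by
        ring
    _ ≤ 1 / (n : ℝ) + D * (n : ℝ) ^ e * (1 / 2 ^ n) := by gcongr
    _ = 1 / (n : ℝ) + (D : ℝ) * ((n : ℝ) ^ e / (2 : ℝ) ^ n) := by ring
    _ ≤ ε := h3

end Pool.Agent.H583R2.WS
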