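import Pool.Agent.H583R2.WS.Defs
import Pool.Agent.H583R2.WH.LocE

/-! Task LO: events depend on finitely many strings. -/

namespace Pool.Agent.H583R2.WS

open Pool.Agent.NPC Pool.Agent.H628R3.RO Pool.Agent.H583R2.WH

private theorem LO_word_congr {A A' : Oracle} (l : ℕ) (w : List Bool) (v : List ℕ)
    (h : ∀ i < l, A (adr w v i) = A' (adr w v i)) : word A l w v = word A' l w v := by
  unfold word
  congr 1
  apply List.map_congr_left
  intro i hi
  exact h i (List.mem_range.1 hi)

private theorem LO_alt {M : ℕ} {P P' : List ℕ → Prop} :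
    ∀ (bs : List ℕ) (e : Bool) (z : List ℕ),
      (∀ y : List ℕ, y.length = bs.sum → (∀ u ∈ y, u < M) → (P (z ++ y) ↔ P' (z ++ y))) →
      (Alt M P e bs z ↔ Alt M P' e bs z)
  | [], e, z, h => by
    have h1 := h [] (by simp) (by simp)
    rw [List.append_nil] at h1
    cases e <;> exact h1
  | b :: bs, true, z, h =>
    exists_congr fun y => and_congr_right fun hy => LO_alt bs false _ fun y' h1 h2 => by
      rw [List.append_assoc]
      apply h
      · rw [List.length_append, List.sum_cons, hy.1, h1]
      · intro u hu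
        rcases List.mem_append.1 hu with h3 | h3
        · exact hy.2 u h3
        · exact h2 u h3
  | b :: bs, false, z, h =>
    forall_congr' fun y => imp_congr_right fun hy => LO_alt bs true _ fun y' h1 h2 => by
      rw [List.append_assoc]
      apply h
      · rw [List.length_append, List.sum_cons, hy.1, h1]
      · intro u hu
        rcases List.mem_append.1 hu with h3 | h3
        · exact hy.2 u h3
        · exact h2 u h3

private theorem LO_finite (N : ℕ) : {T : Tail | (bits T).length ≤ N}.Finite := by
  have h1 : {z : List Bool | z.length ≤ N}.Finite := List.finite_length_le Bool N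
  exact h1.preimage (fun a _ b _ h => bits_injective h)

private theorem LO_RR (x : List Bool) (k : ℕ) : ∃ U : Finset (List Bool),
    ∀ A A' : Oracle, (∀ q ∈ U, A q = A' q) → ((x, k) ∈ RR A ↔ (x, k) ∈ RR A') := by
  classical
  refine ⟨((ws x.length k ×ˢ Finset.range (k + 1)) ×ˢ Finset.range x.length.size).image
      (fun p => adr (bits (x, p.1.2)) p.1.1 p.2) ∪
    ((ws x.length k ×ˢ ws (lvl x) (dp x)) ×ˢ Finset.range x.length.size).image
      (fun p => adr (bits (x, k + 1)) (p.1.1 ++ p.1.2) p.2), ?_⟩
  intro A A' h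
  have h1 : ∀ y ∈ ws x.length k, ∀ i ≤ k,
      word A x.length.size (bits (x, i)) y = word A' x.length.size (bits (x, i)) y := by
    intro y hy i hi
    apply LO_word_congr
    intro j hj
    apply h
    rw [Finset.mem_union, Finset.mem_image]
    refine Or.inl ⟨((y, i), j), ?_, rfl⟩
    rw [Finset.mem_product, Finset.mem_product, Finset.mem_range, Finset.mem_range]
    exact ⟨⟨hy, Nat.lt_succ_of_le hi⟩, hj⟩
  have h2 : ∀ y ∈ ws x.length k, ∀ z ∈ ws (lvl x) (dp x),
      word A x.length.size (bits (x, k + 1)) (y ++ z) =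
        word A' x.length.size (bits (x, k + 1)) (y ++ z) := by
    intro y hy z hz
    apply LO_word_congr
    intro j hj
    apply h
    rw [Finset.mem_union, Finset.mem_image, Finset.mem_image]
    refine Or.inr ⟨((y, z), j), ?_, rfl⟩
    rw [Finset.mem_product, Finset.mem_product, Finset.mem_range]
    exact ⟨⟨hy, hz⟩, hj⟩
  show (∃ y ∈ ws x.length k, A ∈ Act k x.length x y ∧
    Alt (lvl x) (fun z => Bt k x.length x y z A) false (List.replicate (dp x) 1) []) ↔
    (∃ y ∈ ws x.length k, A' ∈ Act k x.length x y ∧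
    Alt (lvl x) (fun z => Bt k x.length x y z A') false (List.replicate (dp x) 1) [])
  refine exists_congr fun y => and_congr_right fun hy => and_congr ?_ ?_
  · refine forall_congr' fun i => imp_congr_right fun hi => ?_
    rw [h1 y hy i hi]
  · apply LO_alt
    intro z hz1 hz2
    rw [List.nil_append]
    show word A _ _ _ = 0 ↔ word A' _ _ _ = 0
    rw [h2 y hy z (mem_ws.2 ⟨by simpa using hz1, hz2⟩)]

theorem floc_err2 (k : ℕ) (M : Alg) (f h : ℕ) (bs : List ℕ) (x : List Bool) :
    FLoc (Err2 k M f h bs x) := by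
  classical
  obtain ⟨qb, hqb⟩ := M.out_congr
  obtain ⟨b, hb⟩ := M.out_length
  obtain ⟨u, hu⟩ : ∃ u, u = inp (fun _ => f) x k := ⟨_, rfl⟩
  choose U _ hU using fun T : Tail => acc_touch T bs
  obtain ⟨U0, hU0⟩ := LO_RR x k
  refine ⟨{q | q.length ≤ qb.eval u.length} ∪
    ((⋃ T ∈ {T : Tail | (bits T).length ≤ b.eval u.length}, (U T : Set (List Bool))) ∪ U0),
    ?_, ?_⟩
  · apply Set.Finite.union (List.finite_length_le Bool _)
    apply Set.Finite.union _ (Finset.finite_toSet _)
    exact (LO_finite _).biUnion fun T _ => Finset.finite_toSet _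
  · apply loc_of_imp
    intro A A' hA hErr
    have hout : M.out A u = M.out A' u :=
      hqb A A' u u.length le_rfl fun q hq => hA q (Or.inl hq)
    have hQQ : (x, k) ∈ RR A ↔ (x, k) ∈ RR A' :=
      hU0 A A' fun q hq => hA q (Or.inr (Or.inr hq))
    intro hT
    apply hErr
    obtain ⟨T, h1, h2, h3⟩ := hT
    rw [← hu] at h1
    have h4 : M.out A u = some (bits T) := by rw [hout, h1]
    have h5 : (bits T).length ≤ b.eval u.length := hb A u _ h4
    have h6 : Acc A T bs ↔ Acc A' T bs := by
      apply hU T
      intro q hq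
      apply hA q
      refine Or.inr (Or.inl ?_)
      rw [Set.mem_iUnion₂]
      exact ⟨T, h5, hq⟩
    refine ⟨T, ?_, h2, ?_⟩
    · rw [← hu]
      exact h4
    · rw [hQQ, h6]
      exact h3

end Pool.Agent.H583R2.WS
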