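import Pool.Agent.H583R2.WS.Defs
import Pool.Agent.NPC.Num
import Pool.Agent.H628R3.RO.A3

/-! Task PF: the tail is computable in polynomial time. -/

namespace Pool.Agent.H583R2.WS

open Pool.Agent.NPC Pool.Agent.H628R3.RO Pool.Agent.H583R2.WH

namespace PF

theorem p_bits {α β : Type} [TEnc α] [TEnc β] {g : α → β} (hg : Poly g) :
    Poly (fun a => bits (g a)) := by
  have h1 : PC (bits : α → List Bool) (fun x : List Bool => x) (fun a => bits (g a)) := by
    obtain ⟨c, p, h⟩ := hg
    exact ⟨c, p, h⟩
  exact PC.comp (g := fun x => x) (f := fun a => bits (g a)) PC.rawIn h1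

theorem takeWhile_eq (x : List Bool) :
    x.foldr (fun b acc => if b = true then b :: acc else []) [] = x.takeWhile id := by
  induction x with
  | nil => rfl
  | cons b x ih =>
    rw [List.foldr_cons, ih, List.takeWhile_cons]
    cases b <;> rfl

theorem poly_tw : Poly (fun x : List Bool => x.takeWhile id) := by
  refine (Poly.foldr (l := fun x : List Bool => x) (s := fun _ => ([] : List Bool))
    (F := fun _ (b : Bool) (acc : List Bool) => if b = true then b :: acc else [])
    Poly.id (NPC.Poly.const _) ?_ (Polynomial.C 2 * Polynomial.X) ?_).congr takeWhile_eq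
  · refine Poly.ite (p := fun p : List Bool × Bool × List Bool => p.2.1 = true)
      (Poly.decide_bool (Poly.fst (Poly.snd Poly.id))) ?_ (NPC.Poly.const _)
    exact Poly.cons (Poly.fst (Poly.snd Poly.id)) (Poly.snd (Poly.snd Poly.id))
  · intro a k hk
    rw [takeWhile_eq]
    have h1 := sz_listBool_le ((a.drop k).takeWhile id)
    have h2 := sz_listBool_ge a
    have h3 : ((a.drop k).takeWhile id).length ≤ (a.drop k).length :=
      (List.takeWhile_sublist _).length_le
    rw [List.length_drop] at h3
    simp only [Polynomial.eval_mul, Polynomial.eval_C, Polynomial.eval_X]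
    omega

theorem u_lvl {α : Type} [TEnc α] {x : α → List Bool} (hx : Poly x) :
    UPoly (fun a => lvl (x a)) :=
  UPoly.length (poly_tw.comp hx)

/-! ### capped powers -/

theorem cp_iter (m N j : ℕ) :
    (fun s => min (s * m) N)^[j] (min 1 N) = min (m ^ j) N := by
  induction j with
  | zero => simp
  | succ j ih =>
    rw [Function.iterate_succ_apply', ih, pow_succ]
    rcases le_total (m ^ j) N with h | h
    · rw [min_eq_left h]
    · rw [min_eq_right h]
      rcases Nat.eq_zero_or_pos m with h0 | h0
      · subst h0; simp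
      · rw [min_eq_right (Nat.le_mul_of_pos_right N h0),
          min_eq_right (h.trans (Nat.le_mul_of_pos_right _ h0))]

theorem p_cpow {α : Type} [TEnc α] {m j N : α → ℕ} (hm : Poly m) (hj : UPoly j) (hN : Poly N) :
    Poly (fun a => min ((m a) ^ (j a)) (N a)) := by
  obtain ⟨r, hr⟩ := hN.sz_le
  refine (Poly.iterLen (l := fun a => List.replicate (j a) ()) (s := fun a => min 1 (N a))
    (F := fun a s => min (s * m a) (N a)) hj (Poly.min (NPC.Poly.const 1) hN) ?_
    (Polynomial.C 2 * r) ?_).congr fun a => ?_
  · exact Poly.min (Poly.mul (Poly.snd Poly.id) (hm.comp (Poly.fst Poly.id)))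
      (hN.comp (Poly.fst Poly.id))
  · intro a k hk
    have h1 : (fun s => min (s * m a) (N a))^[k] (min 1 (N a)) ≤ N a := by
      rw [cp_iter]
      exact min_le_right _ _
    have h2 := sz_nat_mono_le h1
    have h3 := hr a
    simp only [Polynomial.eval_mul, Polynomial.eval_C]
    omega
  · rw [List.length_replicate, cp_iter]

/-! ### the number of alternations -/

theorem log_iff (m Y j : ℕ) : j + 3 ≤ Nat.log m Y ↔ (1 < m ∧ m ^ (j + 3) ≤ Y) := by
  constructor
  · intro h
    have hm : 1 < m := by
      by_contra hcon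
      rw [Nat.log_of_left_le_one (by omega)] at h
      omega
    have hY : Y ≠ 0 := by
      rintro rfl
      rw [Nat.log_zero_right] at h
      omega
    exact ⟨hm, (Nat.le_log_iff_pow_le hm hY).1 h⟩
  · rintro ⟨hm, h⟩
    have hY : Y ≠ 0 := by
      have := Nat.pow_pos (n := j + 3) (show 0 < m by omega)
      omega
    exact (Nat.le_log_iff_pow_le hm hY).2 h

theorem len_filter (M n : ℕ) :
    ((List.range n).filter (fun j => decide (j < M))).length = min n M := by
  induction n with
  | zero => simp
  | succ n ih =>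
    rw [List.range_succ, List.filter_append, List.length_append, ih]
    by_cases h : n < M
    · simp [h]; omega
    · simp [h]; omega

theorem dp_le (x : List Bool) : dp x ≤ x.length := by
  unfold dp
  have h1 := Nat.log_le_self (lvl x) (x.length - lvl x - 1)
  omega

theorem dp_eq (x : List Bool) : dp x = ((List.range x.length).filter (fun j =>
    decide (1 < lvl x) && decide (min ((lvl x) ^ (j + 3)) (x.length - lvl x - 1 + 1) ≤
      x.length - lvl x - 1))).length := by
  have h1 : ∀ j ∈ List.range x.length, (decide (1 < lvl x) &&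
      decide (min ((lvl x) ^ (j + 3)) (x.length - lvl x - 1 + 1) ≤ x.length - lvl x - 1)) =
      decide (j < dp x) := by
    intro j _
    rw [← Bool.decide_and]
    apply decide_eq_decide.2
    have h2 := log_iff (lvl x) (x.length - lvl x - 1) j
    have h3 : min ((lvl x) ^ (j + 3)) (x.length - lvl x - 1 + 1) ≤ x.length - lvl x - 1 ↔
        (lvl x) ^ (j + 3) ≤ x.length - lvl x - 1 := by
      rw [min_le_iff]
      constructor
      · rintro (h | h)
        · exact h
        · omega
      · exact Or.inl
    rw [h3, ← h2]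
    unfold dp
    omega
  rw [List.filter_congr h1, len_filter, min_eq_right (dp_le x)]

theorem u_dp {α : Type} [TEnc α] {x : α → List Bool} (hx : Poly x) :
    UPoly (fun a => dp (x a)) := by
  have hl : Poly (fun a => (x a).length) := Poly.length hx
  have hv : Poly (fun a => lvl (x a)) := (u_lvl hx).toPoly
  have hY : Poly (fun a => (x a).length - lvl (x a) - 1) :=
    Poly.sub (Poly.sub hl hv) (NPC.Poly.const 1)
  have h1 : Poly (fun q : α × ℕ => q.1) := Poly.fst Poly.id
  have hj : UPoly (fun q : α × ℕ => min q.2 ((x q.1).length) + 3) :=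
    UPoly.add (UPoly.of_le (Poly.min (Poly.snd Poly.id) (hl.comp h1))
      ((UPoly.length hx).comp h1) fun q => min_le_right _ _) (UPoly.const 3)
  have hF : Poly (fun q : α × ℕ => (decide (1 < lvl (x q.1)) &&
      decide (min ((lvl (x q.1)) ^ (min q.2 ((x q.1).length) + 3))
        ((x q.1).length - lvl (x q.1) - 1 + 1) ≤ (x q.1).length - lvl (x q.1) - 1))) :=
    Poly.and (Poly.decide_lt (NPC.Poly.const 1) (hv.comp h1))
      (Poly.decide_le (p_cpow (hv.comp h1) hj (Poly.succ (hY.comp h1))) (hY.comp h1))
  refine (UPoly.length (Poly.filter (l := fun a => List.range (x a).length)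
    (p := fun a j => (decide (1 < lvl (x a)) &&
      decide (min ((lvl (x a)) ^ (min j ((x a).length) + 3))
        ((x a).length - lvl (x a) - 1 + 1) ≤ (x a).length - lvl (x a) - 1)))
    (Poly.range_length hx) hF)).congr fun a => ?_
  congr 1
  show _ = dp (x a)
  rw [dp_eq (x a)]
  refine congrArg List.length (List.filter_congr fun j hj' => ?_)
  have := List.mem_range.1 hj'
  rw [min_eq_left this.le]

end PF

theorem pow_dp_le (x : List Bool) : lvl x ^ dp x ≤ x.length + 1 := by
  unfold dp
  rcases Nat.lt_or_ge 1 (lvl x) with hm | hm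
  · rcases Nat.eq_zero_or_pos (x.length - lvl x - 1) with h0 | h0
    · rw [h0, Nat.log_zero_right]
      simp
    · have h1 := Nat.pow_log_le_self (lvl x) (x := x.length - lvl x - 1) (by omega)
      have h2 : lvl x ^ (Nat.log (lvl x) (x.length - lvl x - 1) - 2) ≤
          lvl x ^ (Nat.log (lvl x) (x.length - lvl x - 1)) :=
        Nat.pow_le_pow_right (by omega) (Nat.sub_le _ _)
      omega
  · rw [Nat.log_of_left_le_one hm]
    simp

namespace PF

theorem pow_le {x : List Bool} {j : ℕ} (h : j ≤ dp x) : lvl x ^ j ≤ x.length + 1 := by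
  rcases Nat.eq_zero_or_pos (lvl x) with h0 | h0
  · rw [h0]
    rcases Nat.eq_zero_or_pos j with h1 | h1
    · rw [h1]; simp
    · rw [zero_pow (by omega)]; omega
  · exact (Nat.pow_le_pow_right h0 h).trans (pow_dp_le x)

theorem u_mdp {α : Type} [TEnc α] {x : α → List Bool} (hx : Poly x) :
    UPoly (fun a => lvl (x a) ^ dp (x a)) := by
  refine UPoly.of_le (n := fun a => (x a).length + 1) ?_ (UPoly.add (UPoly.length hx)
    (UPoly.const 1)) fun a => pow_dp_le (x a)
  refine (p_cpow (u_lvl hx).toPoly (u_dp hx) (Poly.succ (Poly.length hx))).congr fun a => ?_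
  exact min_eq_left (pow_dp_le (x a))

theorem p_dig {α : Type} [TEnc α] {x : α → List Bool} {b : α → ℕ} (hx : Poly x) (hb : Poly b) :
    Poly (fun a => dig (lvl (x a)) (dp (x a)) (b a)) := by
  have h1 : Poly (fun q : α × ℕ => q.1) := Poly.fst Poly.id
  have hj : UPoly (fun q : α × ℕ => dp (x q.1) - 1 - q.2) :=
    UPoly.of_le (Poly.sub (Poly.sub ((u_dp hx).toPoly.comp h1) (NPC.Poly.const 1))
      (Poly.snd Poly.id)) ((u_dp hx).comp h1) fun q => by omega
  have hF : Poly (fun q : α × ℕ => b q.1 / (min (lvl (x q.1) ^ (dp (x q.1) - 1 - q.2))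
      ((x q.1).length + 1)) % lvl (x q.1)) :=
    Poly.mod (Poly.div (hb.comp h1) (p_cpow ((u_lvl hx).toPoly.comp h1) hj
      ((Poly.succ (Poly.length hx)).comp h1))) ((u_lvl hx).toPoly.comp h1)
  refine (NPC.Poly.map (l := fun a => List.range (dp (x a)))
    (F := fun a j => b a / (min (lvl (x a) ^ (dp (x a) - 1 - j))
      ((x a).length + 1)) % lvl (x a)) (UPoly.range (u_dp hx)) hF).congr fun a => ?_
  unfold dig
  refine List.map_congr_left fun j _ => ?_
  rw [min_eq_left (pow_le (x := x a) (by omega))]

/-! ### the formula -/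

/-- the kind of the level `n` below the top -/
def ty (e : Bool) (n : ℕ) : ℕ := if (decide (n % 2 = 1) ^^ e) = true then 2 else 1

theorem ty_zero (e : Bool) : ty e 0 = if e then 2 else 1 := by
  cases e <;> rfl

theorem ty_succ (e : Bool) (n : ℕ) : ty e (n + 1) = ty (!e) n := by
  unfold ty
  rcases Nat.mod_two_eq_zero_or_one n with h | h
  · have h1 : (n + 1) % 2 = 1 := by omega
    rw [h, h1]
    cases e <;> rfl
  · have h1 : (n + 1) % 2 = 0 := by omega
    rw [h, h1]
    cases e <;> rfl

/-- the closing tokens after the leaf `b` -/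
def clo (m d : ℕ) (e : Bool) (b : ℕ) : List (ℕ × ℕ) :=
  ((List.range d).filter (fun j => decide ((b + 1) % m ^ (j + 1) = 0))).map
    (fun j => (ty e (d - (j + 1)), m))

theorem clo_succ (m d : ℕ) (e : Bool) (b : ℕ) : clo m (d + 1) e b =
    clo m d (!e) b ++ (if (b + 1) % m ^ (d + 1) = 0 then [(ty e 0, m)] else []) := by
  unfold clo
  rw [List.range_succ, List.filter_append, List.map_append]
  congr 1
  · refine List.map_congr_left fun j hj => ?_
    have h1 := List.mem_range.1 (List.mem_filter.1 hj).1
    have h2 : d + 1 - (j + 1) = (d - (j + 1)) + 1 := by omega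
    rw [h2, ty_succ]
  · by_cases h : (b + 1) % m ^ (d + 1) = 0
    · simp [h]
    · simp [h]

theorem clo_mod (m d : ℕ) (e : Bool) (c b : ℕ) : clo m d e (c * m ^ d + b) = clo m d e b := by
  unfold clo
  congr 1
  refine List.filter_congr fun j hj => ?_
  apply decide_eq_decide.2
  have h1 : j + 1 ≤ d := List.mem_range.1 hj
  obtain ⟨i, hi⟩ := Nat.exists_eq_add_of_le h1
  have h2 : c * m ^ d + b + 1 = (b + 1) + m ^ (j + 1) * (c * m ^ i) := by
    rw [hi, pow_add]
    ring
  rw [h2, Nat.add_mul_mod_self_left]

theorem flat_range (g : ℕ → List (ℕ × ℕ)) (n m : ℕ) :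
    (List.range m).flatMap (fun c => (List.range n).flatMap (fun b => g (c * n + b))) =
      (List.range (m * n)).flatMap g := by
  induction m with
  | zero => simp
  | succ m ih =>
    rw [List.range_succ, List.flatMap_append, ih, Nat.succ_mul, List.range_add,
      List.flatMap_append]
    congr 1
    rw [List.flatMap_map]
    simp

theorem tk_eq (m o : ℕ) (hm : 1 ≤ m) : ∀ (d : ℕ) (e : Bool) (a : ℕ), tk m o e d a =
    (List.range (m ^ d)).flatMap (fun b => (0, o + (a * m ^ d + b)) :: clo m d e b) := by
  intro d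
  induction d with
  | zero =>
    intro e a
    cases e <;> simp [tk, clo]
  | succ d ih =>
    intro e a
    have h0 : tk m o e (d + 1) a = (List.range m).flatMap (fun c => tk m o (!e) d (a * m + c)) ++
        [(if e then 2 else 1, m)] := by
      cases e <;> rfl
    rw [h0]
    have h1 : (List.range m).flatMap (fun c => tk m o (!e) d (a * m + c)) =
        (List.range (m * m ^ d)).flatMap
          (fun b => (0, o + (a * m ^ (d + 1) + b)) :: clo m d (!e) b) := by
      rw [← flat_range]
      refine List.flatMap_congr fun c _ => ?_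
      rw [ih]
      refine List.flatMap_congr fun b _ => ?_
      rw [clo_mod]
      congr 2
      rw [pow_succ]
      ring
    rw [h1]
    have h2 : m ^ (d + 1) = m * m ^ d := by rw [pow_succ]; ring
    obtain ⟨M, hM⟩ : ∃ M, m * m ^ d = M + 1 := by
      have h3 : 0 < m * m ^ d := Nat.mul_pos hm (Nat.pow_pos hm)
      exact ⟨m * m ^ d - 1, by omega⟩
    rw [h2, hM, List.range_succ, List.flatMap_append, List.flatMap_append, List.append_assoc]
    congr 1
    · refine List.flatMap_congr fun b hb => ?_
      have hb' := List.mem_range.1 hb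
      rw [clo_succ, h2, hM, if_neg, List.append_nil]
      rw [Nat.mod_eq_of_lt (by omega)]
      omega
    · simp only [List.flatMap_cons, List.flatMap_nil, List.append_nil]
      rw [clo_succ, h2, hM, if_pos (Nat.mod_self _), ty_zero]
      rfl

theorem tk_eq' (m o d : ℕ) (h : 1 ≤ m ∨ d = 0) : tk m o false d 0 =
    (List.range (m ^ d)).flatMap (fun b => (0, o + b) :: clo m d false b) := by
  rcases h with h | h
  · rw [tk_eq m o h]
    refine List.flatMap_congr fun b _ => ?_
    rw [zero_mul, zero_add]
  · subst h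
    simp [tk, clo]

theorem lvl_dp (x : List Bool) : 1 ≤ lvl x ∨ dp x = 0 := by
  rcases Nat.eq_zero_or_pos (lvl x) with h | h
  · right
    unfold dp
    rw [h, Nat.log_of_left_le_one (by omega)]
  · exact Or.inl h

theorem p_clo {α : Type} [TEnc α] {x : α → List Bool} {b : α → ℕ} (hx : Poly x) (hb : Poly b) :
    Poly (fun a => clo (lvl (x a)) (dp (x a)) false (b a)) := by
  have h1 : Poly (fun q : α × ℕ => q.1) := Poly.fst Poly.id
  have hj : UPoly (fun q : α × ℕ => min (q.2 + 1) (dp (x q.1))) :=
    UPoly.of_le (Poly.min (Poly.succ (Poly.snd Poly.id)) ((u_dp hx).toPoly.comp h1))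
      ((u_dp hx).comp h1) fun q => min_le_right _ _
  have hp : Poly (fun q : α × ℕ => decide ((b q.1 + 1) %
      (min (lvl (x q.1) ^ (min (q.2 + 1) (dp (x q.1)))) ((x q.1).length + 1)) = 0)) :=
    Poly.decide_eq (Poly.mod ((Poly.succ hb).comp h1) (p_cpow ((u_lvl hx).toPoly.comp h1) hj
      ((Poly.succ (Poly.length hx)).comp h1))) (NPC.Poly.const 0)
  have hf : Poly (fun a => (List.range (dp (x a))).filter (fun j => decide ((b a + 1) %
      (min (lvl (x a) ^ (min (j + 1) (dp (x a)))) ((x a).length + 1)) = 0))) :=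
    Poly.filter (p := fun a j => decide ((b a + 1) %
      (min (lvl (x a) ^ (min (j + 1) (dp (x a)))) ((x a).length + 1)) = 0))
      (UPoly.range (u_dp hx)) hp
  have hd : Poly (fun q : α × ℕ => dp (x q.1) - (q.2 + 1)) :=
    Poly.sub ((u_dp hx).toPoly.comp h1) (Poly.succ (Poly.snd Poly.id))
  have ht : Poly (fun q : α × ℕ => (ty false (dp (x q.1) - (q.2 + 1)), lvl (x q.1))) := by
    refine Poly.pair ?_ ((u_lvl hx).toPoly.comp h1)
    refine (Poly.ite (p := fun q : α × ℕ => (dp (x q.1) - (q.2 + 1)) % 2 = 1)
      (Poly.decide_eq (Poly.mod hd (NPC.Poly.const 2)) (NPC.Poly.const 1))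
      (NPC.Poly.const 2) (NPC.Poly.const 1)).congr fun q => ?_
    unfold ty
    by_cases h : (dp (x q.1) - (q.2 + 1)) % 2 = 1
    · simp [h]
    · simp [h]
  refine (NPC.Poly.map (F := fun a j => (ty false (dp (x a) - (j + 1)), lvl (x a))) hf
    ht).congr fun a => ?_
  unfold clo
  congr 1
  refine List.filter_congr fun j hj' => ?_
  have h2 : j + 1 ≤ dp (x a) := List.mem_range.1 hj'
  rw [min_eq_left h2, min_eq_left (pow_le h2)]

end PF

open PF in
theorem poly_tst : Poly (fun p : List Bool × List Unit => tst p.1 p.2.length) := by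
  have hx : Poly (fun p : List Bool × List Unit => p.1) := Poly.fst Poly.id
  have hk : UPoly (fun p : List Bool × List Unit => p.2.length) :=
    UPoly.length (Poly.snd Poly.id)
  have hr : Poly (fun p : List Bool × List Unit =>
      (List.range p.2.length).map (fun j => lvl p.1 + j)) :=
    NPC.Poly.map (F := fun (p : List Bool × List Unit) (j : ℕ) => lvl p.1 + j)
      (UPoly.range hk) (Poly.add ((u_lvl hx).toPoly.comp (Poly.fst Poly.id))
        (Poly.snd Poly.id))
  have hm : Poly (fun p : List Bool × List Unit => lvl p.1 + p.2.length) :=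
    Poly.add (u_lvl hx).toPoly hk.toPoly
  have h1 : Poly (fun q : (List Bool × List Unit) × ℕ => q.1) := Poly.fst Poly.id
  unfold tst
  refine Poly.append ?_ ?_
  · refine NPC.Poly.map (F := fun (p : List Bool × List Unit) (i : ℕ) =>
      (Sum.inl (bits (p.1, i), (List.range p.2.length).map (fun j => lvl p.1 + j),
        lvl p.1 + p.2.length) : Atom)) (UPoly.range (UPoly.add hk (UPoly.const 1))) ?_
    exact Poly.inl (Poly.pair (p_bits (Poly.pair (hx.comp h1) (Poly.snd Poly.id)))
      (Poly.pair (hr.comp h1) (hm.comp h1)))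
  · refine NPC.Poly.map (F := fun (p : List Bool × List Unit) (a : ℕ) =>
      (Sum.inl (bits (p.1, p.2.length + 1), (List.range p.2.length).map (fun j => lvl p.1 + j) ++
        dig (lvl p.1) (dp p.1) a, lvl p.1 + p.2.length) : Atom)) (UPoly.range (u_mdp hx)) ?_
    exact Poly.inl (Poly.pair (p_bits (Poly.pair (hx.comp h1)
      ((UPoly.add hk (UPoly.const 1)).toPoly.comp h1)))
      (Poly.pair (Poly.append (hr.comp h1) (p_dig (hx.comp h1) (Poly.snd Poly.id)))
        (hm.comp h1)))

open PF in
theorem poly_fml : Poly (fun p : List Bool × List Unit => fml (lvl p.1) (dp p.1) p.2.length) := by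
  have hx : Poly (fun p : List Bool × List Unit => p.1) := Poly.fst Poly.id
  have hk : UPoly (fun p : List Bool × List Unit => p.2.length) :=
    UPoly.length (Poly.snd Poly.id)
  have h1 : Poly (fun q : (List Bool × List Unit) × ℕ => q.1) := Poly.fst Poly.id
  have hA : Poly (fun p : List Bool × List Unit =>
      (List.range (p.2.length + 1)).map (fun i => ((0 : ℕ), i))) :=
    NPC.Poly.map (F := fun (_ : List Bool × List Unit) (i : ℕ) => ((0 : ℕ), i))
      (UPoly.range (UPoly.add hk (UPoly.const 1)))
      (Poly.pair (NPC.Poly.const 0) (Poly.snd Poly.id))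
  have hB : Poly (fun p : List Bool × List Unit =>
      (List.range (lvl p.1 ^ dp p.1)).flatMap
        (fun b => ((0 : ℕ), p.2.length + 1 + b) :: clo (lvl p.1) (dp p.1) false b)) :=
    Poly.flatMap (F := fun (p : List Bool × List Unit) (b : ℕ) =>
      ((0 : ℕ), p.2.length + 1 + b) :: clo (lvl p.1) (dp p.1) false b)
      (UPoly.range (u_mdp hx))
      (Poly.cons (Poly.pair (NPC.Poly.const 0) (Poly.add
        ((UPoly.add hk (UPoly.const 1)).toPoly.comp h1) (Poly.snd Poly.id)))
        (p_clo (hx.comp h1) (Poly.snd Poly.id)))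
  have hC : Poly (fun p : List Bool × List Unit => [((1 : ℕ), p.2.length + 2)]) :=
    Poly.cons (Poly.pair (NPC.Poly.const 1) (UPoly.add hk (UPoly.const 2)).toPoly)
      (NPC.Poly.const [])
  refine (Poly.append (Poly.append hA hB) hC).congr fun p => ?_
  unfold fml
  rw [tk_eq' _ _ _ (lvl_dp p.1)]

end Pool.Agent.H583R2.WS
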