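import Pool.Agent.H583R2.WS.Eval
import Pool.Agent.H583R2.WS.PolyF
import Pool.Agent.H583R2.WH.Truth

/-! Task ME: the hard problem is in W[SAT]. -/

namespace Pool.Agent.H583R2.WS

open Pool.Agent.NPC Pool.Agent.H628R3.RO Pool.Agent.H583R2.WH

private theorem me_ext {M L : ℕ} {P P' : List ℕ → Prop}
    (h : ∀ z : List ℕ, z.length = L → (∀ u ∈ z, u < M) → (P z ↔ P' z)) :
    ∀ (bs : List ℕ) (e : Bool) (z : List ℕ), (∀ u ∈ z, u < M) → z.length + bs.sum = L →
      (Alt M P e bs z ↔ Alt M P' e bs z)
  | [], e, z, h1, h2 => by
    have := h z (by simpa using h2) h1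
    cases e <;> exact this
  | b :: bs, true, z, h1, h2 => by
    simp only [Alt]
    refine exists_congr fun y => and_congr_right fun hy => ?_
    refine me_ext h bs false (z ++ y) ?_ ?_
    · intro u hu
      rcases List.mem_append.1 hu with hu | hu
      · exact h1 u hu
      · exact hy.2 u hu
    · rw [List.length_append, hy.1]
      rw [List.sum_cons] at h2
      omega
  | b :: bs, false, z, h1, h2 => by
    simp only [Alt]
    refine forall_congr' fun y => imp_congr_right fun hy => ?_
    refine me_ext h bs true (z ++ y) ?_ ?_
    · intro u hu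
      rcases List.mem_append.1 hu with hu | hu
      · exact h1 u hu
      · exact hy.2 u hu
    · rw [List.length_append, hy.1]
      rw [List.sum_cons] at h2
      omega

private theorem me_reg_y (m : ℕ) (y : List ℕ) :
    ((List.range y.length).map (fun j => m + j)).map (reg (List.range m ++ y)) = y := by
  apply List.ext_getElem
  · simp
  · intro i h1 h2
    simp only [List.getElem_map, List.getElem_range]
    unfold reg
    rw [List.getD_eq_getElem?_getD, List.getElem?_append_right (by simp)]
    simp only [List.length_range, Nat.add_sub_cancel_left]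
    rw [List.getElem?_eq_getElem h2]
    rfl

private theorem me_reg_out (m : ℕ) (y : List ℕ) : reg (List.range m ++ y) (m + y.length) = 0 := by
  unfold reg
  rw [List.getD_eq_getElem?_getD, List.getElem?_eq_none (by simp)]
  rfl

private theorem me_reg_dig (m : ℕ) (y z : List ℕ) (hz : ∀ u ∈ z, u < m) :
    z.map (reg (List.range m ++ y)) = z := by
  conv_rhs => rw [← List.map_id z]
  refine List.map_congr_left fun u hu => ?_
  have hu' := hz u hu
  unfold reg
  rw [List.getD_eq_getElem?_getD, List.getElem?_append_left (by simpa using hu'),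
    List.getElem?_range hu']
  rfl

private theorem me_getD1 {α : Type} (g : ℕ → α) (h : ℕ → α) (n n' i : ℕ) (d : α) (hi : i < n) :
    ((List.range n).map g ++ (List.range n').map h).getD i d = g i := by
  rw [List.getD_eq_getElem?_getD, List.getElem?_append_left (by simpa using hi),
    List.getElem?_map, List.getElem?_range hi]
  rfl

private theorem me_getD2 {α : Type} (g : ℕ → α) (h : ℕ → α) (n n' i : ℕ) (d : α) (hi : i < n') :
    ((List.range n).map g ++ (List.range n').map h).getD (n + i) d = h i := by
  rw [List.getD_eq_getElem?_getD, List.getElem?_append_right (by simp),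
    List.getElem?_map]
  simp only [List.length_map, List.length_range, Nat.add_sub_cancel_left]
  rw [List.getElem?_range hi]
  rfl

theorem rr_iff (A : Oracle) (x : List Bool) (k : ℕ) : (x, k) ∈ RR A ↔ Sat A (ST x k) k := by
  unfold RR Sat ST
  simp only [Set.mem_ofPred_eq, List.length_replicate]
  refine exists_congr fun y => ?_
  rw [← mem_ws]
  refine and_congr_right fun hy => ?_
  obtain ⟨hy1, hy2⟩ := mem_ws.1 hy
  rw [frm_fml]
  obtain ⟨m, hm⟩ : ∃ m, m = lvl x := ⟨_, rfl⟩
  obtain ⟨d, hd⟩ : ∃ d, d = dp x := ⟨_, rfl⟩
  have e1 : (tst x k).map (val A x.length.size (List.range (lvl x) ++ y)) =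
      (List.range (k + 1)).map (fun i => decide (word A x.length.size (bits (x, i)) y = 0)) ++
      (List.range (lvl x ^ dp x)).map (fun a => val A x.length.size (List.range (lvl x) ++ y)
        (Sum.inl (bits (x, k + 1),
          (List.range k).map (fun j => lvl x + j) ++ dig (lvl x) (dp x) a, lvl x + k))) := by
    unfold tst
    rw [List.map_append, List.map_map, List.map_map]
    congr 1
    refine List.map_congr_left fun i _ => ?_
    simp only [Function.comp, val]
    have h1 := me_reg_y (lvl x) y
    have h2 := me_reg_out (lvl x) y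
    rw [hy1] at h1 h2
    rw [h1, h2]
  rw [e1]
  refine and_congr ?_ ?_
  · show (∀ i ≤ k, word A x.length.size (bits (x, i)) y = 0) ↔ _
    refine forall_congr' fun i => imp_congr_right fun hi => ?_
    rw [me_getD1 _ _ _ _ _ _ (by omega), decide_eq_true_eq]
  · refine me_ext (L := dp x) (fun z hz hz' => ?_) _ _ _ (by simp) (by simp)
    have hzw : z ∈ ws (lvl x) (dp x) := mem_ws.2 ⟨hz, hz'⟩
    rw [me_getD2 _ _ _ _ _ _ (num_lt hzw), dig_num hzw]
    show word A x.length.size (bits (x, k + 1)) (y ++ z) = 0 ↔ _
    simp only [val, decide_eq_true_eq, List.map_append]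
    have h1 := me_reg_y (lvl x) y
    have h2 := me_reg_out (lvl x) y
    rw [hy1] at h1 h2
    rw [h1, h2, me_reg_dig (lvl x) y z hz']

private theorem ms_bits {α β : Type} [TEnc α] [TEnc β] {g : α → β} (hg : Poly g) :
    Poly (fun a => bits (g a)) := by
  have h1 : PC (bits : α → List Bool) (fun x : List Bool => x) (fun a => bits (g a)) := by
    obtain ⟨c, p, h⟩ := hg
    exact ⟨c, p, h⟩
  exact PC.comp (g := fun x => x) (f := fun a => bits (g a)) PC.rawIn h1

private theorem ms_takeWhile (x : List Bool) :
    x.foldr (fun b acc => if b = true then b :: acc else []) [] = x.takeWhile id := by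
  induction x with
  | nil => rfl
  | cons b x ih =>
    rw [List.foldr_cons, ih, List.takeWhile_cons]
    cases b <;> rfl

private theorem ms_poly_tw : Poly (fun x : List Bool => x.takeWhile id) := by
  refine (Poly.foldr (l := fun x : List Bool => x) (s := fun _ => ([] : List Bool))
    (F := fun _ (b : Bool) (acc : List Bool) => if b = true then b :: acc else [])
    Poly.id (NPC.Poly.const _) ?_ (Polynomial.C 2 * Polynomial.X) ?_).congr ms_takeWhile
  · refine Poly.ite (p := fun p : List Bool × Bool × List Bool => p.2.1 = true)
      (Poly.decide_bool (Poly.fst (Poly.snd Poly.id))) ?_ (NPC.Poly.const _)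
    exact Poly.cons (Poly.fst (Poly.snd Poly.id)) (Poly.snd (Poly.snd Poly.id))
  · intro a k hk
    rw [ms_takeWhile]
    have h1 := sz_listBool_le ((a.drop k).takeWhile id)
    have h2 := sz_listBool_ge a
    have h3 : ((a.drop k).takeWhile id).length ≤ (a.drop k).length :=
      (List.takeWhile_sublist _).length_le
    rw [List.length_drop] at h3
    simp only [Polynomial.eval_mul, Polynomial.eval_C, Polynomial.eval_X]
    omega

private theorem ms_lvl {α : Type} [TEnc α] {x : α → List Bool} (hx : Poly x) :
    UPoly (fun a => lvl (x a)) :=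
  UPoly.length (ms_poly_tw.comp hx)

/-- the tail as a function of the input -/
private def msG (p : List Bool × List Unit × List Unit) : STail := ST p.1 p.2.1.length

private theorem ms_polyG : Poly msG := by
  have hx : Poly (fun p : List Bool × List Unit × List Unit => p.1) := Poly.fst Poly.id
  have hxk : Poly (fun p : List Bool × List Unit × List Unit => (p.1, p.2.1)) :=
    Poly.pair hx (Poly.fst (Poly.snd Poly.id))
  unfold msG ST
  refine Poly.pair (UPoly.length hx) (Poly.pair (UPoly.range (ms_lvl hx)) (Poly.pair ?_ ?_))
  · exact poly_tst.comp hxk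
  · exact poly_fml.comp hxk

/-- the algorithm -/
private def msF (y : List Bool) : List Bool :=
  match unbits (List Bool × List Unit × List Unit) y with
  | none => []
  | some p => bits (msG p)

private theorem ms_polyF : Poly msF := by
  refine (Poly.optCases (o := fun y : List Bool => unbits (List Bool × List Unit × List Unit) y)
    (g := fun _ => ([] : List Bool)) (h := fun _ p => bits (msG p)) poly_unbits
    (NPC.Poly.const _) ((ms_bits ms_polyG).comp (Poly.snd Poly.id))).congr fun y => ?_
  unfold msF
  cases unbits (List Bool × List Unit × List Unit) y <;> rfl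

theorem mem_WSAT (A : Oracle) : RR A ∈ WSAT A := by
  refine ⟨fun _ => 0, fun k => k, Computable.const 0, Computable.id, msF,
    IsFP.of_poly ms_polyF, ?_⟩
  intro x k
  refine ⟨ST x k, ?_, rr_iff A x k⟩
  unfold msF WH.inp
  rw [unbits_bits]
  simp only [msG, List.length_replicate]

end Pool.Agent.H583R2.WS
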