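import Pool.Agent.H583R2.WS.Sep
import Pool.Agent.H583R2.WS.Mem

/-! `W[SAT]` and `AW[*]` relative to a random oracle. -/

namespace Pool.Agent.H583R2.WS

open Pool.Agent.NPC Pool.Agent.H628R3.RO Pool.Agent.H583R2.WH

open MeasureTheory

/-- With probability one, `W[SAT]` is not contained in `AW[*]`. -/
theorem main : ∀ᵐ A ∂randomOracle, ¬ WSAT A ⊆ AWN A := by
  filter_upwards [not_mem_AWN] with A hA h
  exact hA (h (mem_WSAT A))

end Pool.Agent.H583R2.WS
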