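import Pool.Agent.H583R2.WS.Defs
import Pool.Agent.H583R2.WH.Rg

/-! Task RG: the strings that belong to y. -/

namespace Pool.Agent.H583R2.WS

open Pool.Agent.NPC Pool.Agent.H628R3.RO Pool.Agent.H583R2.WH

private theorem mem_rg2 {t k m N : ℕ} {x : List Bool} {y : List ℕ} {q : List Bool} :
    q ∈ rg2 t k m N x y ↔ (∃ i j, i < k + 1 ∧ j < N.size ∧ q = adr (bits (x, i)) y j) ∨
      ∃ z j, z ∈ ws m t ∧ j < N.size ∧ q = adr (bits (x, k + 1)) (y ++ z) j := by
  unfold rg2
  rw [Finset.mem_union, Finset.mem_image, Finset.mem_image]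
  apply or_congr
  · constructor
    · rintro ⟨⟨i, j⟩, h, rfl⟩
      rw [Finset.mem_product, Finset.mem_range, Finset.mem_range] at h
      exact ⟨i, j, h.1, h.2, rfl⟩
    · rintro ⟨i, j, hi, hj, rfl⟩
      refine ⟨(i, j), ?_, rfl⟩
      rw [Finset.mem_product, Finset.mem_range, Finset.mem_range]
      exact ⟨hi, hj⟩
  · constructor
    · rintro ⟨⟨z, j⟩, h, rfl⟩
      rw [Finset.mem_product, Finset.mem_range] at h
      exact ⟨z, j, h.1, h.2, rfl⟩
    · rintro ⟨z, j, hi, hj, rfl⟩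
      refine ⟨(z, j), ?_, rfl⟩
      rw [Finset.mem_product, Finset.mem_range]
      exact ⟨hi, hj⟩

theorem rg2_unique {t k m m' N N' : ℕ} {x x' : List Bool} {y y' : List ℕ} {q : List Bool}
    (hy : y.length = k) (hy' : y'.length = k) (h : q ∈ rg2 t k m N x y)
    (h' : q ∈ rg2 t k m' N' x' y') : x = x' ∧ y = y' := by
  rw [mem_rg2] at h h'
  rcases h with ⟨i, j, hi, hj, rfl⟩ | ⟨z, j, hz, hj, rfl⟩ <;>
  rcases h' with ⟨i', j', hi', hj', e⟩ | ⟨z', j', hz', hj', e⟩ <;>
  obtain ⟨e1, e2, e3⟩ := adr_inj e <;>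
  have e4 := bits_injective e1 <;>
  rw [Prod.mk.injEq] at e4 <;>
  obtain ⟨e5, e6⟩ := e4
  · exact ⟨e5, e2⟩
  · omega
  · omega
  · exact ⟨e5, (List.append_inj e2 (by rw [hy, hy'])).1⟩

theorem card_rg2 (t k m N : ℕ) (x : List Bool) (y : List ℕ) :
    (rg2 t k m N x y).card ≤ N.size * (k + 1 + m ^ t) := by
  unfold rg2
  refine (Finset.card_union_le _ _).trans ?_
  have h1 : ((Finset.range (k + 1) ×ˢ Finset.range N.size).image
      (fun p => adr (bits (x, p.1)) y p.2)).card ≤ (k + 1) * N.size := by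
    refine Finset.card_image_le.trans ?_
    rw [Finset.card_product, Finset.card_range, Finset.card_range]
  have h2 : ((ws m t ×ˢ Finset.range N.size).image
      (fun p => adr (bits (x, k + 1)) (y ++ p.1) p.2)).card ≤ m ^ t * N.size := by
    refine Finset.card_image_le.trans ?_
    rw [Finset.card_product, Finset.card_range, card_ws]
  refine (add_le_add h1 h2).trans ?_
  rw [← add_mul, mul_comm]

/-- few strings hit few regions -/
theorem hit_card2 (t k m : ℕ) (Q : Finset (List Bool)) : ∃ U : Finset (List Bool × List ℕ),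
    U.card ≤ Q.card ∧ ∀ x ∈ XX t m, ∀ y ∈ ws x.length k, (x, y) ∉ U →
      ∀ q ∈ Q, q ∉ rg2 t k m x.length x y := by
  classical
  let g : List Bool → List Bool × List ℕ := fun q =>
    if h : ∃ p : List Bool × List ℕ, p.2 ∈ ws p.1.length k ∧ q ∈ rg2 t k m p.1.length p.1 p.2
      then h.choose else ([], [])
  refine ⟨Q.image g, Finset.card_image_le, ?_⟩
  intro x _ y hy hU q hq hr
  apply hU
  rw [Finset.mem_image]
  refine ⟨q, hq, ?_⟩
  have h : ∃ p : List Bool × List ℕ,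
      p.2 ∈ ws p.1.length k ∧ q ∈ rg2 t k m p.1.length p.1 p.2 := ⟨(x, y), hy, hr⟩
  have hg : g q = h.choose := dif_pos h
  rw [hg]
  have h2 := h.choose_spec
  have h3 := rg2_unique (mem_ws.1 h2.1).1 (mem_ws.1 hy).1 h2.2 hr
  exact Prod.ext h3.1 h3.2

end Pool.Agent.H583R2.WS
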