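import Pool.Agent.H583R2.WS.Zero
import Pool.Agent.H583R2.WH.Sep

/-! Task SE: the separation. -/

namespace Pool.Agent.H583R2.WS

open Pool.Agent.NPC Pool.Agent.H628R3.RO Pool.Agent.H583R2.WH

open MeasureTheory in
theorem not_mem_AWN : ∀ᵐ A ∂randomOracle, RR A ∉ AWN A := by
  have hP : IsProbabilityMeasure randomOracle := by
    unfold randomOracle
    infer_instance
  have h1 : ∀ᵐ A ∂randomOracle, ∀ (M : Alg) (f h : ℕ) (bs : List ℕ) (b1 : ℕ),
      A ∉ {A | ∀ b ≥ b1, A ∈ Fine2 bs.length (kk2 M) M f h bs (b ^ 3)} := by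
    rw [ae_all_iff]
    intro M
    rw [ae_all_iff]
    intro f
    rw [ae_all_iff]
    intro h
    rw [ae_all_iff]
    intro bs
    rw [ae_all_iff]
    intro b1
    rw [← measure_eq_zero_iff_ae_notMem]
    have h2 := prob_fine_zero2 f h M bs b1
    unfold prob at h2
    rwa [measureReal_eq_zero_iff] at h2
  filter_upwards [h1] with A hA hQ
  obtain ⟨f, h, bs, F, ⟨M, hM⟩, hF⟩ := hQ
  refine hA M (f (kk2 M)) (h (kk2 M)) (bs (kk2 M)) 0 ?_
  intro b _ x _ hE
  apply hE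
  obtain ⟨T, hT1, hT2, hT3⟩ := hF x (kk2 M)
  refine ⟨T, ?_, hT2, hT3⟩
  have h3 := hM (inp f x (kk2 M))
  rw [hT1] at h3
  exact h3

end Pool.Agent.H583R2.WS
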