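import Pool.Agent.H583R2.WS.ErrM
import Pool.Agent.H583R2.WS.ErrT
import Pool.Agent.H583R2.WS.LocE
import Pool.Agent.H583R2.WS.Lim
import Pool.Agent.H583R2.WH.DC
import Pool.Agent.H583R2.WH.PrQ
import Pool.Agent.H583R2.WH.Zero

/-! Task ZE: probability zero. -/

namespace Pool.Agent.H583R2.WS

open Pool.Agent.NPC Pool.Agent.H628R3.RO Pool.Agent.H583R2.WH

private theorem length_XX {t m : ℕ} {x : List Bool} (hx : x ∈ XX t m) :
    x.length = m + 1 + m ^ (t + 2) := by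
  obtain ⟨u, hu, rfl⟩ := mem_XX.1 hx
  rw [List.length_append, List.length_replicate, List.length_cons, hu]
  omega

theorem prob_fine_le2 (f h : ℕ) (M : Alg) (bs : List ℕ) :
    ∃ D e b0 : ℕ, ∀ b ≥ b0, prob (Fine2 bs.length (kk2 M) M f h bs (b ^ 3)) ≤
      1 / ((b ^ 3 : ℕ) : ℝ) + D * ((b ^ 3 : ℕ) : ℝ) ^ e *
        2 ^ (((b ^ 3) + 1 + (b ^ 3) ^ (bs.length + 2)).size * (kk2 M + 1 + (b ^ 3) ^ bs.length)) /
          2 ^ ((b ^ 3) ^ (bs.length + 2)) := by
  classical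
  obtain ⟨D, e, hT⟩ := err_touch2 bs.length (kk2 M) f h M bs
  obtain ⟨b0, hM⟩ := err_many2 f h M bs
  refine ⟨D, e, max b0 2, fun b hb => ?_⟩
  have hb0 : b0 ≤ b := (le_max_left _ _).trans hb
  have hb1 : 2 ≤ b := (le_max_right _ _).trans hb
  have hM' := hM b hb0
  have hn2 : 2 ≤ b ^ 3 := hb1.trans (Nat.le_self_pow (by norm_num) b)
  have hn : 1 ≤ b ^ 3 := by omega
  have hlen := fun (x : List Bool) (hx : x ∈ XX bs.length (b ^ 3)) => length_XX hx
  generalize b ^ 3 = n at hM' hn hn2 hlen ⊢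
  generalize kk2 M = k at hT hM' ⊢
  generalize bs.length = t at hT hM' hlen ⊢
  generalize hN : n + 1 + n ^ (t + 2) = N at hlen ⊢
  have hnN : n ≤ N := by omega
  have hN1 : 1 ≤ N := by omega
  have key := dc (R := XX t n ×ˢ ws N k) (X := XX t n) (g := Prod.fst)
    (fun r hr => (Finset.mem_product.1 hr).1) (P := fun r => rg2 t k n N r.1 r.2)
    (p := N.size * (k + 1 + n ^ t)) (S := D * n ^ e) (V := (N ^ k + 1) / 2) (ε := 1 / (n : ℝ))
    (G := fun x => Err2 k M f h bs x) (Qt := fun x => Quiet k N x)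
    (fun x _ => floc_err2 k M f h bs x) (fun x _ => floc_quiet k N x)
    (fun r _ => card_rg2 t k n N r.1 r.2)
    (by
      intro x hx A hA
      obtain ⟨U, hU, hU'⟩ := hT n hn2 x hx A hA
      refine ⟨U, hU, ?_⟩
      rintro ⟨x', y'⟩ hr hrU C
      obtain ⟨h1, h2⟩ := Finset.mem_product.1 hr
      have h3 := hU' x' h1 y' (by rw [hlen x' h1]; exact h2) hrU C
      rw [hlen x' h1] at h3
      exact h3)
    (by
      intro x hx A hA hAll
      have h0 := hM' x hx A (by rw [hlen x hx]; exact hA) (hAll x hx)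
      rw [hlen x hx] at h0
      obtain ⟨V, hVs, hVc, hV⟩ := h0
      refine ⟨V.image (fun y => (x, y)), ?_, ?_⟩
      · rw [Finset.card_image_of_injective _ (fun a b hab => (Prod.mk.inj hab).2)]
        omega
      · intro r hr
        obtain ⟨y, hy, rfl⟩ := Finset.mem_image.1 hr
        exact ⟨Finset.mem_product.2 ⟨hx, hVs hy⟩, rfl, hV y hy⟩)
    (fun x _ => (prob_quiet hN1 x).trans (by
      apply one_div_le_one_div_of_le
      · exact_mod_cast hn
      · exact_mod_cast hnN))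
  have hFine : {A | ∀ x ∈ XX t n, A ∉ Err2 k M f h bs x} = Fine2 t k M f h bs n := rfl
  rw [hFine, card_XX] at key
  have hnr : (0 : ℝ) < n := by exact_mod_cast hn
  by_cases hle : prob (Fine2 t k M f h bs n) ≤ 1 / (n : ℝ)
  · have : (0 : ℝ) ≤ D * (n : ℝ) ^ e * 2 ^ (N.size * (k + 1 + n ^ t)) / 2 ^ (n ^ (t + 2)) := by
      positivity
    linarith
  · push Not at hle
    have hV1 : 1 ≤ (N ^ k + 1) / 2 := by
      have : 1 ≤ N ^ k := Nat.one_le_pow _ _ hN1
      omega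
    have hV1' : (1 : ℝ) ≤ (((N ^ k + 1) / 2 : ℕ) : ℝ) := by exact_mod_cast hV1
    have h0 : (0 : ℝ) ≤ ((2 ^ (n ^ (t + 2)) : ℕ) : ℝ) *
        (prob (Fine2 t k M f h bs n) - 1 / (n : ℝ)) :=
      mul_nonneg (by positivity) (by linarith)
    have h1 := le_trans (le_mul_of_one_le_left h0 hV1') key
    have h2 : (0 : ℝ) < 2 ^ (n ^ (t + 2)) := by positivity
    have h3 : prob (Fine2 t k M f h bs n) - 1 / (n : ℝ) ≤
        D * (n : ℝ) ^ e * 2 ^ (N.size * (k + 1 + n ^ t)) / 2 ^ (n ^ (t + 2)) := by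
      rw [le_div_iff₀ h2]
      push_cast at h1
      linarith
    linarith

theorem prob_fine_zero2 (f h : ℕ) (M : Alg) (bs : List ℕ) (b1 : ℕ) :
    prob {A | ∀ b ≥ b1, A ∈ Fine2 bs.length (kk2 M) M f h bs (b ^ 3)} = 0 := by
  obtain ⟨D, e, b0, h1⟩ := prob_fine_le2 f h M bs
  apply le_antisymm _ MeasureTheory.measureReal_nonneg
  apply le_of_forall_pos_le_add
  intro ε hε
  obtain ⟨n0, hn0⟩ := num_lim2 bs.length (kk2 M) D e ε hε
  set b := max (max b0 b1) n0 with hb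
  have hb0 : b0 ≤ b := (le_max_left _ _).trans (le_max_left _ _)
  have hb1 : b1 ≤ b := (le_max_right _ _).trans (le_max_left _ _)
  have hbn : n0 ≤ b ^ 3 := (le_max_right _ _).trans (Nat.le_self_pow (by norm_num) b)
  have h2 : prob {A | ∀ b ≥ b1, A ∈ Fine2 bs.length (kk2 M) M f h bs (b ^ 3)} ≤
      prob (Fine2 bs.length (kk2 M) M f h bs (b ^ 3)) :=
    MeasureTheory.measureReal_mono (fun A hA => hA b hb1)
  have h3 := h1 b hb0
  have h4 := hn0 (b ^ 3) hbn
  rw [zero_add]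
  exact h2.trans (h3.trans h4)

end Pool.Agent.H583R2.WS
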